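import Pool.Agent.H17.QA.Defs

/-!
# QA module ListPath: counting open self-avoiding paths given as lists of vertices
-/

open MeasureTheory Filter Topology
open Pool.Agent.H17.IIC Pool.Agent.H41.QC Pool.Agent.H47.GM Pool.Agent.H17.QA

namespace Pool.Agent.H41.QA

variable {d : ℕ}

lemma lp_isChain_getD {R : V d → V d → Prop} {l : List (V d)} (h : l.IsChain R) (x : V d) {t : ℕ}
    (ht : t + 1 < l.length) : R (l.getD t x) (l.getD (t + 1) x) := by
  have h1 := List.isChain_iff_getElem.1 h t ht
  rw [List.getD_eq_getElem _ _ (by omega), List.getD_eq_getElem _ _ ht]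
  exact h1

lemma lp_split {κ : Kind} {ω : El d → Bool} {l : List (V d)} {N : ℕ} (x : V d) (h : OP κ ω l)
    (hl : l.length = N + 1) : SplitOP κ ω N (fun t => l.getD t x) := by
  refine ⟨fun t ht => lp_isChain_getD h.chain x (by omega), ?_, ?_, ?_⟩
  · intro a ha b hb hab
    rw [List.getD_eq_getElem _ _ (by omega), List.getD_eq_getElem _ _ (by omega)] at hab
    exact (h.nodup.getElem_inj_iff).1 hab
  · intro hκ t ht
    have h1 := h.opn
    subst hκ
    exact lp_isChain_getD (R := fun a b => ω s(a, b) = true) h1 x (by omega)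
  · intro hκ t ht
    have h1 := h.opn
    subst hκ
    rw [List.getD_eq_getElem _ _ (by omega)]
    exact h1 _ (List.getElem_mem _)

lemma lp_getD_zero {l : List (V d)} {x : V d} (h : l.head? = some x) : l.getD 0 x = x := by
  cases l with
  | nil => simp at h
  | cons a t => simpa using h

/-- all open self-avoiding paths with `N` steps from `x` -/
theorem ncard_le_pn (κ : Kind) (ω : El d → Bool) (x : V d) (N : ℕ) (S : Set (List (V d)))
    (hS : ∀ l ∈ S, OP κ ω l ∧ l.length = N + 1 ∧ l.head? = some x) :
    S.Finite ∧ S.ncard ≤ Pn κ ω N x := by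
  classical
  rcases S.eq_empty_or_nonempty with hS' | ⟨l₀, hl₀⟩
  · subst hS'
    simp
  obtain ⟨s₀, -, -⟩ := Split_to_mem (lp_split x (hS l₀ hl₀).1 (hS l₀ hl₀).2.1)
    (lp_getD_zero (hS l₀ hl₀).2.2)
  have key : ∀ l : List (V d), ∃ s : Fin N → Step d, l ∈ S → s ∈ PnBasic_OS κ ω N x ∧
      ∀ t ≤ N, x + pos s t = l.getD t x := by
    intro l
    by_cases hl : l ∈ S
    · obtain ⟨h1, h2, h3⟩ := hS l hl
      obtain ⟨s, hs1, hs2⟩ := Split_to_mem (lp_split x h1 h2) (lp_getD_zero h3)
      exact ⟨s, fun _ => ⟨hs1, hs2⟩⟩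
    · exact ⟨s₀, fun h => absurd h hl⟩
  choose g hg using key
  have hmaps : Set.MapsTo g S (PnBasic_OS κ ω N x : Set (Fin N → Step d)) := fun l hl =>
    Finset.mem_coe.2 (hg l hl).1
  have hinj : Set.InjOn g S := by
    intro l hl l' hl' hll
    obtain ⟨h1, h2, h3⟩ := hS l hl
    obtain ⟨h1', h2', h3'⟩ := hS l' hl'
    apply List.ext_getElem (by omega)
    intro t ht ht'
    have e1 := (hg l hl).2 t (by omega)
    have e2 := (hg l' hl').2 t (by omega)
    rw [hll, e2] at e1
    rw [List.getD_eq_getElem _ _ ht', List.getD_eq_getElem _ _ ht] at e1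
    exact e1.symm
  have hfin : (PnBasic_OS κ ω N x : Set (Fin N → Step d)).Finite := Finset.finite_toSet _
  refine ⟨Set.Finite.of_injOn hmaps hinj hfin, ?_⟩
  have := Set.ncard_le_ncard_of_injOn g hmaps hinj hfin
  rwa [Set.ncard_coe_finset, PnBasic_card_OS] at this

theorem fam_finite (κ : Kind) (ω : El d → Bool) (A : Set (V d)) (x y : V d) (N : ℕ) :
    (Fam κ ω A x y N).Finite :=
  (ncard_le_pn κ ω x N (Fam κ ω A x y N) fun _ hl => ⟨hl.1, hl.2.1, hl.2.2.1⟩).1

theorem zc_le_pn (κ : Kind) (ω : El d → Bool) (A : Set (V d)) (x y : V d) (N : ℕ) :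
    Zc κ ω A x y N ≤ Pn κ ω N x :=
  (ncard_le_pn κ ω x N (Fam κ ω A x y N) fun _ hl => ⟨hl.1, hl.2.1, hl.2.2.1⟩).2

theorem zc_mono (κ : Kind) (ω : El d → Bool) {A A' : Set (V d)} (h : A ⊆ A') (x y : V d) (N : ℕ) :
    Zc κ ω A x y N ≤ Zc κ ω A' x y N :=
  Set.ncard_le_ncard (fun _ hl => ⟨hl.1, hl.2.1, hl.2.2.1, hl.2.2.2.1, fun v hv => h (hl.2.2.2.2 v hv)⟩)
    (fam_finite κ ω A' x y N)

/-- prefixes of open self-avoiding paths -/
lemma op_take {κ : Kind} {ω : El d → Bool} {l : List (V d)} (h : OP κ ω l) (k : ℕ) :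
    OP κ ω (l.take k) := by
  refine ⟨h.nodup.sublist (List.take_sublist k l), h.chain.take k, ?_⟩
  have h1 := h.opn
  cases κ with
  | bond => exact List.IsChain.take h1 k
  | site => exact fun a ha => h1 a (List.mem_of_mem_take ha)

/-- concatenation of open self-avoiding paths -/
lemma op_append {κ : Kind} {ω : El d → Bool} {l t : List (V d)} {y : V d} (h : OP κ ω l)
    (hl : l.getLast? = some y) (h' : OP κ ω (y :: t)) (hd : ∀ v ∈ l, v ∉ t) :
    OP κ ω (l ++ t) := by
  have hn := h'.nodup
  rw [List.nodup_cons] at hn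
  refine ⟨?_, ?_, ?_⟩
  · rw [List.nodup_append]
    exact ⟨h.nodup, hn.2, fun a ha b hb hab => hd a ha (hab ▸ hb)⟩
  · rw [List.isChain_append]
    refine ⟨h.chain, h'.chain.tail, ?_⟩
    intro a ha b hb
    rw [hl] at ha
    simp only [Option.mem_def, Option.some.injEq] at ha
    subst ha
    cases t with
    | nil => simp at hb
    | cons c t =>
      simp only [List.head?_cons, Option.mem_def, Option.some.injEq] at hb
      subst hb
      exact (List.isChain_cons_cons.1 h'.chain).1
  · have h1 := h.opn
    have h2 := h'.opn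
    cases κ with
    | bond =>
      show (l ++ t).IsChain _
      rw [List.isChain_append]
      refine ⟨h1, List.IsChain.tail h2, ?_⟩
      intro a ha b hb
      rw [hl] at ha
      simp only [Option.mem_def, Option.some.injEq] at ha
      subst ha
      cases t with
      | nil => simp at hb
      | cons c t =>
        simp only [List.head?_cons, Option.mem_def, Option.some.injEq] at hb
        subst hb
        exact (List.isChain_cons_cons.1 h2).1
    | site =>
      intro a ha
      rcases List.mem_append.1 ha with ha | ha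
      · exact h1 a ha
      · exact h2 a (List.mem_cons_of_mem _ ha)

/-- concatenation of families living in regions which only share the point `y` -/
theorem zc_mul (κ : Kind) (ω : El d → Bool) {A A' : Set (V d)} (x y z : V d)
    (hAA : A ∩ A' ⊆ {y}) (m n : ℕ) :
    Zc κ ω A x y m * Zc κ ω A' y z n ≤ Zc κ ω (A ∪ A') x z (m + n) := by
  unfold Zc
  rw [← Set.ncard_prod]
  refine Set.ncard_le_ncard_of_injOn (fun q : List (V d) × List (V d) => q.1 ++ q.2.tail) ?_ ?_
    (fam_finite κ ω _ x z _)
  · rintro ⟨l, l'⟩ ⟨h1, h2⟩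
    simp only at h1 h2
    obtain ⟨t, rfl⟩ : ∃ t, l' = y :: t := by
      have := h2.2.2.1
      cases l' with
      | nil => simp at this
      | cons a t => simp only [List.head?_cons, Option.some.injEq] at this; exact ⟨t, by rw [this]⟩
    have hn := h2.1.nodup
    rw [List.nodup_cons] at hn
    have hdis : ∀ v ∈ l, v ∉ t := by
      intro v hv hvt
      have : v ∈ A ∩ A' := ⟨h1.2.2.2.2 v hv, h2.2.2.2.2 v (List.mem_cons_of_mem _ hvt)⟩
      have hvy := hAA this
      rw [Set.mem_singleton_iff] at hvy
      subst hvy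
      exact hn.1 hvt
    simp only [List.tail_cons]
    refine ⟨op_append h1.1 h1.2.2.2.1 h2.1 hdis, ?_, ?_, ?_, ?_⟩
    · have e1 := h1.2.1
      have e2 := h2.2.1
      simp only [List.length_cons] at e2
      rw [List.length_append]; omega
    · have e1 := h1.2.2.1
      rw [List.head?_append, e1]; rfl
    · have e1 := h1.2.2.2.1
      have e2 := h2.2.2.2.1
      rw [List.getLast?_append, e1]
      cases t with
      | nil =>
        simp only [List.getLast?_singleton, Option.some.injEq] at e2
        simp [e2]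
      | cons c t =>
        rw [List.getLast?_cons_cons] at e2
        rw [e2]; rfl
    · intro v hv
      rcases List.mem_append.1 hv with hv | hv
      · exact Or.inl (h1.2.2.2.2 v hv)
      · exact Or.inr (h2.2.2.2.2 v (List.mem_cons_of_mem _ hv))
  · rintro ⟨l₁, l₁'⟩ ⟨h1, h1'⟩ ⟨l₂, l₂'⟩ ⟨h2, h2'⟩ he
    simp only at h1 h1' h2 h2' he
    have hlen : l₁.length = l₂.length := by rw [h1.2.1, h2.2.1]
    obtain ⟨e1, e2⟩ := List.append_inj he hlen
    have hh : l₁' = l₂' := by
      have a1 := h1'.2.2.1
      have a2 := h2'.2.2.1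
      cases l₁' with
      | nil => simp at a1
      | cons a t =>
        cases l₂' with
        | nil => simp at a2
        | cons a' t' =>
          simp only [List.head?_cons, Option.some.injEq] at a1 a2
          simp only [List.tail_cons] at e2
          rw [a1, a2, e2]
    rw [e1, hh]

/-- concatenation with an initial piece of one path of the second family -/
theorem zc_trunc (κ : Kind) (ω : El d → Bool) {A A' : Set (V d)} (x y z : V d)
    (hAA : A ∩ A' ⊆ {y}) (m n : ℕ) (h : 1 ≤ Zc κ ω A' y z n) (u : ℕ) (hu : u ≤ n) :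
    Zc κ ω A x y m ≤ Pn κ ω (m + u) x := by
  have hne : (Fam κ ω A' y z n).Nonempty := by
    rw [← Set.ncard_pos (fam_finite κ ω A' y z n)]
    exact h
  obtain ⟨l', h2⟩ := hne
  obtain ⟨t, rfl⟩ : ∃ t, l' = y :: t := by
    have := h2.2.2.1
    cases l' with
    | nil => simp at this
    | cons a t => simp only [List.head?_cons, Option.some.injEq] at this; exact ⟨t, by rw [this]⟩
  have hn := h2.1.nodup
  rw [List.nodup_cons] at hn
  have hop : OP κ ω (y :: t.take u) := by
    have := op_take h2.1 (u + 1)
    rwa [List.take_succ_cons] at this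
  have hlt : (t.take u).length = u := by
    have e2 := h2.2.1
    simp only [List.length_cons] at e2
    rw [List.length_take]; omega
  set S : Set (List (V d)) := (fun l => l ++ t.take u) '' Fam κ ω A x y m with hS
  have hS2 : ∀ l ∈ S, OP κ ω l ∧ l.length = m + u + 1 ∧ l.head? = some x := by
    rintro _ ⟨l, h1, rfl⟩
    have hdis : ∀ v ∈ l, v ∉ t.take u := by
      intro v hv hvt
      have hvt' := List.mem_of_mem_take hvt
      have : v ∈ A ∩ A' := ⟨h1.2.2.2.2 v hv, h2.2.2.2.2 v (List.mem_cons_of_mem _ hvt')⟩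
      have hvy := hAA this
      rw [Set.mem_singleton_iff] at hvy
      subst hvy
      exact hn.1 hvt'
    refine ⟨op_append h1.1 h1.2.2.2.1 hop hdis, ?_, ?_⟩
    · simp only [List.length_append]
      rw [h1.2.1, hlt]; omega
    · simp only
      rw [List.head?_append, h1.2.2.1]; rfl
  have hcard := (ncard_le_pn κ ω x (m + u) S hS2).2
  rw [hS, Set.ncard_image_of_injective _ (fun a b hab => List.append_cancel_right hab)] at hcard
  exact hcard

lemma lp_chain_map {R : V d → V d → Prop} {f : V d → V d} {l : List (V d)} :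
    (l.map f).IsChain R ↔ l.IsChain (fun a b => R (f a) (f b)) := List.isChain_map f

lemma lp_latAdj_add (a b v : V d) : LatAdj (a + v) (b + v) ↔ LatAdj a b := by
  unfold LatAdj
  refine exists_congr fun s => ?_
  constructor
  · intro h
    have : b + v = (a + stepVec s) + v := by rw [h]; abel
    exact add_right_cancel this
  · intro h
    rw [h]; abel

lemma op_map_add {κ : Kind} {ω : El d → Bool} {l : List (V d)} (v : V d) :
    OP κ ω (l.map (· + v)) ↔ OP κ (tr (fun a => a + v) ω) l := by
  have hinj : Function.Injective (fun a : V d => a + v) := add_left_injective v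
  have h1 : (l.map (· + v)).Nodup ↔ l.Nodup := List.nodup_map_iff hinj
  have h2 : (l.map (· + v)).IsChain LatAdj ↔ l.IsChain LatAdj := by
    rw [lp_chain_map]
    constructor
    · exact fun h => h.imp fun a b => (lp_latAdj_add a b v).1
    · exact fun h => h.imp fun a b => (lp_latAdj_add a b v).2
  have h3 : Opn κ ω (l.map (· + v)) ↔ Opn κ (tr (fun a => a + v) ω) l := by
    cases κ with
    | bond =>
      show (l.map (· + v)).IsChain _ ↔ l.IsChain _
      rw [lp_chain_map]
      rfl
    | site =>
      show (∀ a ∈ l.map (· + v), _) ↔ ∀ a ∈ l, _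
      simp only [List.mem_map, forall_exists_index, and_imp, forall_apply_eq_imp_iff₂]
      rfl
  constructor
  · rintro ⟨a, b, c⟩; exact ⟨h1.1 a, h2.1 b, h3.1 c⟩
  · rintro ⟨a, b, c⟩; exact ⟨h1.2 a, h2.2 b, h3.2 c⟩

theorem zc_shift (κ : Kind) (ω : El d → Bool) (A : Set (V d)) (x y v : V d) (N : ℕ) :
    Zc κ ω ((fun a => a + v) '' A) (x + v) (y + v) N = Zc κ (tr (fun a => a + v) ω) A x y N := by
  have hinj : Function.Injective (fun a : V d => a + v) := add_left_injective v
  have himg : Fam κ ω ((fun a => a + v) '' A) (x + v) (y + v) N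
      = (List.map (· + v)) '' Fam κ (tr (fun a => a + v) ω) A x y N := by
    ext l
    constructor
    · rintro ⟨h1, h2, h3, h4, h5⟩
      obtain ⟨l', rfl⟩ : ∃ l', l = List.map (· + v) l' := by
        refine ⟨l.map (· - v), ?_⟩
        rw [List.map_map]
        symm
        convert List.map_id l using 2
        ext a
        simp
      refine ⟨l', ⟨(op_map_add v).1 h1, by simpa using h2, ?_, ?_, ?_⟩, rfl⟩
      · rw [List.head?_map] at h3
        cases hh : l'.head? with
        | none => rw [hh] at h3; simp at h3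
        | some a => rw [hh] at h3; simpa using h3
      · rw [List.getLast?_map] at h4
        cases hh : l'.getLast? with
        | none => rw [hh] at h4; simp at h4
        | some a => rw [hh] at h4; simpa using h4
      · intro a ha
        obtain ⟨b, hb, hb2⟩ := h5 (a + v) (List.mem_map.2 ⟨a, ha, rfl⟩)
        have : b = a := hinj hb2
        rwa [← this]
    · rintro ⟨l', ⟨h1, h2, h3, h4, h5⟩, rfl⟩
      refine ⟨(op_map_add v).2 h1, by simpa using h2, ?_, ?_, ?_⟩
      · rw [List.head?_map, h3]; rfl
      · rw [List.getLast?_map, h4]; rfl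
      · intro a ha
        obtain ⟨b, hb, rfl⟩ := List.mem_map.1 ha
        exact ⟨b, h5 b hb, rfl⟩
  unfold Zc
  rw [himg, Set.ncard_image_of_injective _ (List.map_injective_iff.2 hinj)]

lemma lp_meas_opn (κ : Kind) (l : List (V d)) : MeasurableSet {ω : El d → Bool | Opn κ ω l} := by
  have hc : ∀ e : El d, MeasurableSet {ω : El d → Bool | ω e = true} := fun e => by
    have h1 : Measurable (fun ω : El d → Bool => ω e) := measurable_pi_apply e
    exact h1 (measurableSet_singleton true)
  cases κ with
  | bond =>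
    show MeasurableSet {ω : El d → Bool | l.IsChain (fun a b => ω s(a, b) = true)}
    induction l with
    | nil => simp
    | cons a t ih =>
      cases t with
      | nil => simp
      | cons b t =>
        have : {ω : El d → Bool | (a :: b :: t).IsChain (fun a b => ω s(a, b) = true)}
            = {ω | ω s(a, b) = true} ∩ {ω | (b :: t).IsChain (fun a b => ω s(a, b) = true)} := by
          ext ω
          simp only [Set.mem_inter_iff, Set.mem_ofPred_eq]
          exact List.isChain_cons_cons
        rw [this]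
        exact (hc _).inter ih
  | site =>
    show MeasurableSet {ω : El d → Bool | ∀ a ∈ l, ω s(a, a) = true}
    have : {ω : El d → Bool | ∀ a ∈ l, ω s(a, a) = true} = ⋂ a ∈ {a | a ∈ l}, {ω | ω s(a, a) = true} := by
      ext ω; simp
    rw [this]
    exact MeasurableSet.biInter (Set.to_countable _) fun a _ => hc _

open Classical in
theorem zc_meas (κ : Kind) (A : Set (V d)) (x y : V d) (N : ℕ) :
    Measurable (fun ω : El d → Bool => (Zc κ ω A x y N : ℝ)) := by
  have hfin := fam_finite κ (fun _ : El d => true) A x y N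
  have h1 : ∀ ω : El d → Bool, Fam κ ω A x y N =
      ((hfin.toFinset.filter fun l => Opn κ ω l : Finset (List (V d))) : Set (List (V d))) := by
    intro ω
    ext l
    simp only [Finset.coe_filter, Set.Finite.mem_toFinset, Set.mem_ofPred_eq]
    constructor
    · rintro ⟨h1, h2, h3, h4, h5⟩
      refine ⟨⟨⟨h1.nodup, h1.chain, ?_⟩, h2, h3, h4, h5⟩, h1.opn⟩
      cases κ with
      | bond => exact h1.chain.imp fun _ _ _ => rfl
      | site => exact fun _ _ => rfl
    · rintro ⟨⟨h1, h2, h3, h4, h5⟩, h6⟩
      exact ⟨⟨h1.nodup, h1.chain, h6⟩, h2, h3, h4, h5⟩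
  have h2 : (fun ω : El d → Bool => (Zc κ ω A x y N : ℝ)) = fun ω =>
      ∑ l ∈ hfin.toFinset, if Opn κ ω l then (1 : ℝ) else 0 := by
    funext ω
    unfold Zc
    rw [h1 ω, Set.ncard_coe_finset, Finset.card_filter]
    push_cast
    rfl
  rw [h2]
  exact Finset.measurable_sum _ fun l _ =>
    Measurable.ite (lp_meas_opn κ l) measurable_const measurable_const

end Pool.Agent.H41.QA
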