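import Mathlib

/-! # QA module MaxIneq: Hopf's maximal ergodic inequality (one sided) -/

open MeasureTheory Filter Topology

namespace Pool.Agent.H41.QA

/-- partial sums along the orbit -/
def orb {Ω : Type*} (T : Ω → Ω) (f : Ω → ℝ) (n : ℕ) (ω : Ω) : ℝ :=
  ∑ j ∈ Finset.range n, f (T^[j] ω)

lemma orb_succ' {Ω : Type*} (T : Ω → Ω) (f : Ω → ℝ) (n : ℕ) (ω : Ω) :
    orb T f (n + 1) ω = f ω + orb T f n (T ω) := by
  unfold orb
  rw [Finset.sum_range_succ', add_comm]
  simp [Function.iterate_succ_apply]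

lemma orb_measurable {Ω : Type*} [MeasurableSpace Ω] {T : Ω → Ω} (hT : Measurable T) {f : Ω → ℝ}
    (hf : Measurable f) (n : ℕ) : Measurable (orb T f n) := by
  unfold orb
  exact Finset.measurable_sum _ fun j _ => hf.comp (hT.iterate j)

lemma orb_integrable {Ω : Type*} [MeasurableSpace Ω] {μ : Measure Ω} {T : Ω → Ω}
    (hT : MeasurePreserving T μ μ) {f : Ω → ℝ} (hf : Integrable f μ) (n : ℕ) :
    Integrable (orb T f n) μ := by
  unfold orb
  refine integrable_finsetSum _ fun j _ => ?_
  exact (hT.iterate j).integrable_comp_of_integrable hf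

lemma rng_ne (N : ℕ) : (Finset.range (N + 1)).Nonempty := ⟨0, by simp⟩

/-- maximum of the partial sums up to `N` -/
noncomputable def orbMax {Ω : Type*} (T : Ω → Ω) (f : Ω → ℝ) (N : ℕ) (ω : Ω) : ℝ :=
  (Finset.range (N + 1)).sup' (rng_ne N) (fun n => orb T f n ω)

lemma orbMax_nonneg {Ω : Type*} (T : Ω → Ω) (f : Ω → ℝ) (N : ℕ) (ω : Ω) : 0 ≤ orbMax T f N ω := by
  unfold orbMax
  have h := Finset.le_sup' (s := Finset.range (N + 1)) (fun n => orb T f n ω)
    (by simp : 0 ∈ Finset.range (N + 1))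
  refine le_trans (le_of_eq ?_) h
  simp [orb]

lemma orb_le_orbMax {Ω : Type*} (T : Ω → Ω) (f : Ω → ℝ) {n N : ℕ} (h : n ≤ N) (ω : Ω) :
    orb T f n ω ≤ orbMax T f N ω := by
  unfold orbMax
  exact Finset.le_sup' (s := Finset.range (N + 1)) (fun n => orb T f n ω)
    (Finset.mem_range.2 (by omega))

lemma orbMax_measurable {Ω : Type*} [MeasurableSpace Ω] {T : Ω → Ω} (hT : Measurable T)
    {f : Ω → ℝ} (hf : Measurable f) (N : ℕ) : Measurable (orbMax T f N) := by
  unfold orbMax
  have := Finset.measurable_sup' (s := Finset.range (N + 1)) (rng_ne N)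
    (f := fun n => orb T f n) (fun n _ => orb_measurable hT hf n)
  convert this using 1
  ext ω
  rw [Finset.sup'_apply]

lemma orbMax_integrable {Ω : Type*} [MeasurableSpace Ω] {μ : Measure Ω} {T : Ω → Ω}
    (hT : MeasurePreserving T μ μ) {f : Ω → ℝ} (hfm : Measurable f) (hf : Integrable f μ) (N : ℕ) :
    Integrable (orbMax T f N) μ := by
  have h1 : Integrable (fun ω => ∑ n ∈ Finset.range (N + 1), |orb T f n ω|) μ :=
    integrable_finsetSum _ fun n _ => (orb_integrable hT hf n).abs
  refine h1.mono' (orbMax_measurable hT.measurable hfm N).aestronglyMeasurable ?_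
  refine Eventually.of_forall fun ω => ?_
  rw [Real.norm_eq_abs, abs_of_nonneg (orbMax_nonneg T f N ω)]
  unfold orbMax
  refine Finset.sup'_le _ _ fun n hn => ?_
  exact (le_abs_self _).trans
    (Finset.single_le_sum (f := fun n => |orb T f n ω|) (fun _ _ => abs_nonneg _) hn)

/-- Hopf's maximal ergodic theorem -/
theorem max_ergodic {Ω : Type*} [MeasurableSpace Ω] {μ : Measure Ω} {T : Ω → Ω}
    (hT : MeasurePreserving T μ μ) {g : Ω → ℝ} (hgm : Measurable g) (hg : Integrable g μ) (N : ℕ) :
    0 ≤ ∫ ω in {ω | 0 < orbMax T g N ω}, g ω ∂μ := by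
  have hM := orbMax_measurable hT.measurable hgm N
  have hMi := orbMax_integrable hT hgm hg N
  have hA : MeasurableSet {ω | 0 < orbMax T g N ω} := measurableSet_lt measurable_const hM
  have hMT : Integrable (fun ω => orbMax T g N (T ω)) μ := hT.integrable_comp_of_integrable hMi
  have h1 : ∀ ω, 0 < orbMax T g N ω → orbMax T g N ω - orbMax T g N (T ω) ≤ g ω := by
    intro ω hω
    rw [sub_le_iff_le_add]
    by_contra hcon
    push Not at hcon
    have : orbMax T g N ω ≤ max 0 (g ω + orbMax T g N (T ω)) := by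
      conv_lhs => unfold orbMax
      refine Finset.sup'_le _ _ fun n hn => ?_
      rcases n with _ | n
      · simp [orb]
      · rw [orb_succ']
        refine le_trans ?_ (le_max_right _ _)
        have := orb_le_orbMax T g (n := n) (N := N) (by simp at hn; omega) (T ω)
        linarith
    rcases le_max_iff.1 this with h | h
    · linarith
    · linarith
  have h2 : ∫ ω in {ω | 0 < orbMax T g N ω}, (orbMax T g N ω - orbMax T g N (T ω)) ∂μ
      ≤ ∫ ω in {ω | 0 < orbMax T g N ω}, g ω ∂μ := by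
    refine setIntegral_mono_on ?_ hg.integrableOn hA fun ω hω => h1 ω hω
    exact (hMi.sub hMT).integrableOn
  refine le_trans ?_ h2
  rw [integral_sub hMi.integrableOn hMT.integrableOn]
  have h3 : ∫ ω in {ω | 0 < orbMax T g N ω}, orbMax T g N ω ∂μ = ∫ ω, orbMax T g N ω ∂μ := by
    rw [← integral_indicator hA]
    congr 1
    ext ω
    rw [Set.indicator_apply]
    split_ifs with h
    · rfl
    · simp only [Set.mem_ofPred_eq, not_lt] at h
      exact (le_antisymm h (orbMax_nonneg T g N ω)).symm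
  have h4 : ∫ ω in {ω | 0 < orbMax T g N ω}, orbMax T g N (T ω) ∂μ
      ≤ ∫ ω, orbMax T g N (T ω) ∂μ :=
    setIntegral_le_integral hMT (Eventually.of_forall fun ω => orbMax_nonneg T g N (T ω))
  have h5 : ∫ ω, orbMax T g N (T ω) ∂μ = ∫ ω, orbMax T g N ω ∂μ := by
    have := integral_map (μ := μ) (φ := T) hT.measurable.aemeasurable
      (f := orbMax T g N) (by rw [hT.map_eq]; exact hM.aestronglyMeasurable)
    rw [hT.map_eq] at this
    exact this.symm
  linarith

/-- one sided maximal inequality for nonnegative functions -/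
theorem max_ineq {Ω : Type*} [MeasurableSpace Ω] {μ : Measure Ω} [IsProbabilityMeasure μ]
    {T : Ω → Ω} (hT : MeasurePreserving T μ μ) {f : Ω → ℝ} (hfm : Measurable f)
    (hf : Integrable f μ) (hf0 : ∀ ω, 0 ≤ f ω) {l : ℝ} (hl : 0 < l) :
    μ.real {ω | ∃ n : ℕ, l * n < orb T f n ω} ≤ (∫ ω, f ω ∂μ) / l := by
  have key : ∀ N : ℕ, μ.real {ω | ∃ n ≤ N, l * n < orb T f n ω} ≤ (∫ ω, f ω ∂μ) / l := by
    intro N
    set g : Ω → ℝ := fun ω => f ω - l with hg
    have hgm : Measurable g := hfm.sub_const l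
    have hgi : Integrable g μ := hf.sub (integrable_const l)
    have horb : ∀ n ω, orb T g n ω = orb T f n ω - l * n := by
      intro n ω
      unfold orb
      simp [hg, Finset.sum_sub_distrib, mul_comm]
    have hset : {ω | ∃ n ≤ N, l * n < orb T f n ω} = {ω | 0 < orbMax T g N ω} := by
      ext ω
      constructor
      · rintro ⟨n, hn, h⟩
        refine lt_of_lt_of_le ?_ (orb_le_orbMax T g hn ω)
        rw [horb]; linarith
      · intro h
        have h : 0 < orbMax T g N ω := h
        unfold orbMax at h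
        rw [Finset.lt_sup'_iff] at h
        obtain ⟨n, hn, h⟩ := h
        rw [horb] at h
        exact ⟨n, by simp at hn; omega, by linarith⟩
    rw [hset]
    have h1 := max_ergodic hT hgm hgi N
    have hA : MeasurableSet {ω | 0 < orbMax T g N ω} :=
      measurableSet_lt measurable_const (orbMax_measurable hT.measurable hgm N)
    rw [hg, integral_sub hf.integrableOn (integrable_const l).integrableOn] at h1
    rw [setIntegral_const, smul_eq_mul] at h1
    have h2 : ∫ ω in {ω | 0 < orbMax T g N ω}, f ω ∂μ ≤ ∫ ω, f ω ∂μ :=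
      setIntegral_le_integral hf (Eventually.of_forall hf0)
    rw [le_div_iff₀ hl]
    linarith
  have hU : {ω | ∃ n : ℕ, l * n < orb T f n ω} = ⋃ N : ℕ, {ω | ∃ n ≤ N, l * n < orb T f n ω} := by
    ext ω
    simp only [Set.mem_ofPred_eq, Set.mem_iUnion]
    constructor
    · rintro ⟨n, h⟩; exact ⟨n, n, le_rfl, h⟩
    · rintro ⟨_, n, _, h⟩; exact ⟨n, h⟩
  have hmono : Monotone (fun N : ℕ => {ω | ∃ n ≤ N, l * n < orb T f n ω}) := by
    intro N N' hN ω
    rintro ⟨n, h1, h2⟩
    exact ⟨n, h1.trans hN, h2⟩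
  have ht := tendsto_measure_iUnion_atTop (μ := μ) hmono
  rw [← hU] at ht
  have ht2 := (ENNReal.tendsto_toReal (measure_ne_top μ _)).comp ht
  exact le_of_tendsto ht2 (Eventually.of_forall key)

end Pool.Agent.H41.QA
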