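import Pool.Agent.H41.QA.Greedy
import Pool.Agent.H41.QA.MaxIneq
import Pool.Agent.H41.QC.PropA
import Pool.Agent.H47.GM.SeedInf

/-!
# QA module AbsA: the abstract Theorem A
-/

open MeasureTheory Filter Topology
open Pool.Agent.H17.IIC Pool.Agent.H41.QC Pool.Agent.H47.GM Pool.Agent.H17.QA

namespace Pool.Agent.H41.QA

variable {d : ℕ}

lemma aa_meas_pn (κ : Kind) (x : V d) (c : ℝ) (N : ℕ) :
    MeasurableSet {ω : El d → Bool | c ≤ (Pn κ ω N x : ℝ)} :=
  measurableSet_le measurable_const (PropA_meas_Pn κ N x)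

lemma aa_meas_ev (κ : Kind) (x : V d) (b : ℝ) :
    MeasurableSet {ω : El d → Bool | ∀ᶠ N : ℕ in atTop, Real.exp (b * N) ≤ Pn κ ω N x} := by
  have : {ω : El d → Bool | ∀ᶠ N : ℕ in atTop, Real.exp (b * N) ≤ Pn κ ω N x}
      = ⋃ M : ℕ, ⋂ N : ℕ, ⋂ _ : M ≤ N, {ω | Real.exp (b * N) ≤ (Pn κ ω N x : ℝ)} := by
    ext ω
    simp [eventually_atTop]
  rw [this]
  exact MeasurableSet.iUnion fun M => MeasurableSet.iInter fun N => MeasurableSet.iInter fun _ =>
    aa_meas_pn κ x _ N

lemma aa_iter {Ω : Type*} {v : V d} {T : Ω → Ω} {X : Ω → El d → Bool}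
    (h : ∀ w, X (T w) = tr (fun y => y + v) (X w)) (k : ℕ) (w : Ω) :
    X (T^[k] w) = tr (fun y => y + (k : ℤ) • v) (X w) := by
  induction k with
  | zero =>
    simp only [Function.iterate_zero, id_eq, Nat.cast_zero, zero_smul, add_zero]
    unfold tr
    funext e
    simp
  | succ k ih =>
    rw [Function.iterate_succ_apply', h, ih]
    unfold tr
    funext e
    rw [Sym2.map_map]
    congr 2
    funext y
    simp only [Function.comp]
    push_cast
    rw [add_smul, one_smul]
    abel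

lemma aa_HS (i : Fin d) (v : V d) (k k' : ℕ) :
    (fun a : V d => a + (k : ℤ) • v) '' HS i 0 ((k' : ℤ) • v)
      = HS i ((k : ℤ) • v) (((k + k' : ℕ) : ℤ) • v) := by
  have e1 : (((k + k' : ℕ) : ℤ) • v) = (k' : ℤ) • v + (k : ℤ) • v := by
    push_cast
    rw [add_smul]; abel
  ext y
  constructor
  · rintro ⟨a, ⟨h1, h2⟩, rfl⟩
    refine ⟨?_, ?_⟩
    · simp only [Pi.zero_apply, Pi.add_apply] at h1 ⊢
      linarith
    · rw [e1]
      rcases h2 with h2 | h2
      · left
        simp only [Pi.add_apply] at h2 ⊢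
        linarith
      · right; simp only; rw [h2]
  · rintro ⟨h1, h2⟩
    refine ⟨y - (k : ℤ) • v, ⟨?_, ?_⟩, by simp⟩
    · simp only [Pi.zero_apply, Pi.sub_apply]
      linarith
    · rw [e1] at h2
      rcases h2 with h2 | h2
      · left
        simp only [Pi.add_apply, Pi.sub_apply] at h2 ⊢
        linarith
      · right
        rw [h2]; abel

lemma aa_zc (κ : Kind) (i : Fin d) {Ω : Type*} {v : V d} {T : Ω → Ω} {X : Ω → El d → Bool}
    (h : ∀ w, X (T w) = tr (fun y => y + v) (X w)) (k k' : ℕ) (w : Ω) (N : ℕ) :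
    Zc κ (X (T^[k] w)) (HS i 0 ((k' : ℤ) • v)) 0 ((k' : ℤ) • v) N
      = Zc κ (X w) (HS i ((k : ℤ) • v) (((k + k' : ℕ) : ℤ) • v)) ((k : ℤ) • v)
        (((k + k' : ℕ) : ℤ) • v) N := by
  rw [aa_iter h, ← zc_shift, aa_HS, zero_add]
  congr 1
  push_cast
  rw [add_smul]; abel

/-- ports with a rich link at bounded scales -/
def aaGood (κ : Kind) (i : Fin d) (v : V d) (b : ℝ) {Ω : Type*} (T : Ω → Ω) (X : Ω → El d → Bool)
    (Port : Set Ω) (S : ℕ) : Set Ω :=
  {w | ∃ k ∈ Finset.Icc 1 S, T^[k] w ∈ Port ∧ ∃ N ∈ Finset.range (S + 1),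
    Real.exp (b * N) ≤ Zc κ (X w) (HS i 0 ((k : ℤ) • v)) 0 ((k : ℤ) • v) N}

lemma aaGood_meas (κ : Kind) (i : Fin d) (v : V d) (b : ℝ) {Ω : Type*} [MeasurableSpace Ω]
    {T : Ω → Ω} (hT : Measurable T) {X : Ω → El d → Bool} (hX : Measurable X) {Port : Set Ω}
    (hP : MeasurableSet Port) (S : ℕ) : MeasurableSet (aaGood κ i v b T X Port S) := by
  have : aaGood κ i v b T X Port S = ⋃ k ∈ Finset.Icc 1 S, (T^[k] ⁻¹' Port ∩
      ⋃ N ∈ Finset.range (S + 1), {w | Real.exp (b * N) ≤
        (Zc κ (X w) (HS i 0 ((k : ℤ) • v)) 0 ((k : ℤ) • v) N : ℝ)}) := by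
    ext w
    simp only [aaGood, Set.mem_ofPred_eq, Set.mem_iUnion, Set.mem_inter_iff, Set.mem_preimage,
      exists_prop]
  rw [this]
  refine Finset.measurableSet_biUnion _ fun k _ => ((hT.iterate k) hP).inter ?_
  refine Finset.measurableSet_biUnion _ fun N _ => ?_
  exact measurableSet_le measurable_const ((zc_meas κ _ 0 _ N).comp hX)

open Classical in
/-- cost of the bad ports -/
noncomputable def aaF (κ : Kind) (i : Fin d) (v : V d) (b : ℝ) {Ω : Type*} (T : Ω → Ω)
    (X : Ω → El d → Bool) (Port : Set Ω) (c : Ω → ENNReal) (S : ℕ) (w : Ω) : ℝ :=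
  if w ∈ Port ∧ w ∉ aaGood κ i v b T X Port S then (c w).toReal else 0

/-- positive probability that `0` is a good start -/
theorem absA_pos {κ : Kind} {p : unitInterval} {i : Fin d} {v : V d} {b : ℝ} {Ω : Type*}
    [MeasurableSpace Ω] {P : Measure Ω} {T : Ω → Ω} {X : Ω → El d → Bool} {Port : Set Ω}
    {c : Ω → ENNReal} (h : AbsA κ p i v b P T X Port c) {b' : ℝ} (hb' : b' < b) :
    0 < (prodBern (El d) p).real {ω | ∀ᶠ N : ℕ in atTop, Real.exp (b' * N) ≤ Pn κ ω N 0} := by
  classical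
  have hprob := h.prob
  have hb := h.hb
  have hTm := h.hT.measurable
  -- the small parameter
  obtain ⟨l, hl0, hl1, hlb⟩ : ∃ l : ℝ, 0 < l ∧ l ≤ 1 ∧ (b + b') / 2 ≤ b * (1 - l) / (1 + l) := by
    refine ⟨min (1 / 2) ((b - b') / (4 * (b + 1))), ?_, ?_, ?_⟩
    · exact lt_min (by norm_num) (div_pos (by linarith) (by linarith))
    · exact (min_le_left _ _).trans (by norm_num)
    · set l := min (1 / 2) ((b - b') / (4 * (b + 1))) with hl
      have h0 : 0 < l := lt_min (by norm_num) (div_pos (by linarith) (by linarith))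
      have h1 : l ≤ (b - b') / (4 * (b + 1)) := min_le_right _ _
      rw [le_div_iff₀ (by linarith)] at h1
      rw [le_div_iff₀ (by linarith)]
      nlinarith [mul_nonneg hb h0.le]
  -- integrability of the cost
  have hcfin : ∀ᵐ w ∂P, c w < ⊤ := ae_lt_top h.cost_meas h.cost_int
  have hcint : Integrable (fun w => (c w).toReal) P :=
    integrable_toReal_of_lintegral_ne_top h.cost_meas.aemeasurable h.cost_int
  have hFm : ∀ S, Measurable (aaF κ i v b T X Port c S) := by
    intro S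
    unfold aaF
    refine Measurable.ite ?_ h.cost_meas.ennreal_toReal measurable_const
    exact h.port_meas.inter (aaGood_meas κ i v b hTm h.hX h.port_meas S).compl
  have hF0 : ∀ S w, 0 ≤ aaF κ i v b T X Port c S w := by
    intro S w
    unfold aaF
    split_ifs
    · exact ENNReal.toReal_nonneg
    · exact le_rfl
  have hFle : ∀ S w, aaF κ i v b T X Port c S w ≤ (c w).toReal := by
    intro S w
    unfold aaF
    split_ifs
    · exact le_rfl
    · exact ENNReal.toReal_nonneg
  have hFint : ∀ S, Integrable (aaF κ i v b T X Port c S) P := by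
    intro S
    refine hcint.mono' (hFm S).aestronglyMeasurable (Eventually.of_forall fun w => ?_)
    rw [Real.norm_eq_abs, abs_of_nonneg (hF0 S w)]
    exact hFle S w
  have hlim : Tendsto (fun S => ∫ w, aaF κ i v b T X Port c S w ∂P) atTop (𝓝 0) := by
    have h0 : ∫ _w : Ω, (0 : ℝ) ∂P = 0 := integral_zero _ _
    rw [← h0]
    refine tendsto_integral_of_dominated_convergence (fun w => (c w).toReal)
      (fun S => (hFm S).aestronglyMeasurable) hcint (fun S => Eventually.of_forall fun w => ?_) ?_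
    · rw [Real.norm_eq_abs, abs_of_nonneg (hF0 S w)]
      exact hFle S w
    · filter_upwards [h.rich] with w hw
      refine tendsto_const_nhds.congr' ?_
      by_cases hwP : w ∈ Port
      · obtain ⟨k, hk, hTk, N, hN⟩ := hw hwP
        filter_upwards [eventually_ge_atTop (max k N)] with S hS
        show (0 : ℝ) = aaF κ i v b T X Port c S w
        have hg : w ∈ aaGood κ i v b T X Port S := by
          refine ⟨k, Finset.mem_Icc.2 ⟨hk, (le_max_left _ _).trans hS⟩, hTk, N, ?_, hN⟩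
          rw [Finset.mem_range]
          have := (le_max_right k N).trans hS
          omega
        unfold aaF
        rw [if_neg (fun h' => h'.2 hg)]
      · refine Eventually.of_forall fun S => ?_
        show (0 : ℝ) = aaF κ i v b T X Port c S w
        unfold aaF
        rw [if_neg (fun h' => hwP h'.1)]
  obtain ⟨S, hS⟩ : ∃ S, ∫ w, aaF κ i v b T X Port c S w ∂P < l * P.real Port :=
    (hlim.eventually (gt_mem_nhds (mul_pos hl0 h.port_pos))).exists
  set f := aaF κ i v b T X Port c S with hf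
  have hmax := max_ineq h.hT (hFm S) (hFint S) (hF0 S) hl0
  have hbad : P.real {w | ∃ n : ℕ, l * n < orb T f n w} < P.real Port := by
    refine hmax.trans_lt ?_
    rw [div_lt_iff₀ hl0]
    linarith
  have hpos : 0 < P.real (Port \ {w | ∃ n : ℕ, l * n < orb T f n w}) := by
    have h1 : P.real Port ≤ P.real (Port \ {w | ∃ n : ℕ, l * n < orb T f n w}) +
        P.real {w | ∃ n : ℕ, l * n < orb T f n w} := by
      refine le_trans (measureReal_mono ?_ (measure_ne_top _ _)) (measureReal_union_le _ _)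
      intro w hw
      by_cases hw' : w ∈ {w | ∃ n : ℕ, l * n < orb T f n w}
      · exact Or.inr hw'
      · exact Or.inl ⟨hw, hw'⟩
    linarith
  -- almost every point of this set is mapped into the event
  have hfull : ∀ᵐ w ∂P, ∀ k : ℕ, (T^[k] w ∈ Port → ∃ k' : ℕ, 1 ≤ k' ∧ T^[k'] (T^[k] w) ∈ Port ∧
      ∃ N : ℕ, (N : ENNReal) ≤ c (T^[k] w) ∧
        1 ≤ Zc κ (X (T^[k] w)) (HS i 0 ((k' : ℤ) • v)) 0 ((k' : ℤ) • v) N) ∧ c (T^[k] w) < ⊤ := by
    rw [ae_all_iff]
    intro k
    have h1 := (h.hT.iterate k).quasiMeasurePreserving.ae h.plain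
    have h2 := (h.hT.iterate k).quasiMeasurePreserving.ae hcfin
    filter_upwards [h1, h2] with w a1 a2
    exact ⟨a1, a2⟩
  have hincl : ∀ᵐ w ∂P, w ∈ Port \ {w | ∃ n : ℕ, l * n < orb T f n w} →
      w ∈ X ⁻¹' {ω | ∀ᶠ N : ℕ in atTop, Real.exp (b' * N) ≤ Pn κ ω N (0 : V d)} := by
    filter_upwards [hfull] with w hw
    rintro ⟨hwP, hwb⟩
    have hsum : ∀ m : ℕ, ∑ j ∈ Finset.range m, f (T^[j] w) ≤ l * m := by
      intro m
      by_contra hcon
      push Not at hcon
      exact hwb ⟨m, hcon⟩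
    have hg := greedy κ (X w) i v h.hv b l hb hl0.le hl1 S (fun k => T^[k] w ∈ Port)
      (fun k => f (T^[k] w)) (fun k => hF0 S _) hwP ?_ hsum
    · show ∀ᶠ N : ℕ in atTop, Real.exp (b' * N) ≤ Pn κ (X w) N (0 : V d)
      have hl2 : (0 : ℝ) < b - b' := by linarith
      obtain ⟨M, hM⟩ := exists_nat_gt (((b + b') / 2 * (S + l)) / ((b - b') / 2))
      filter_upwards [eventually_ge_atTop (max M (S + 1))] with N hN
      refine le_trans ?_ (hg N)
      rw [Real.exp_le_exp]
      have hNM : (M : ℝ) ≤ N := by exact_mod_cast (le_max_left _ _).trans hN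
      have hNS : ((S + 1 : ℕ) : ℝ) ≤ N := by exact_mod_cast (le_max_right _ _).trans hN
      push_cast at hNS
      have e1 : b * (1 - l) * (((N : ℝ) - S - l) / (1 + l)) =
          b * (1 - l) / (1 + l) * ((N : ℝ) - S - l) := by ring
      rw [e1]
      have e2 : (b + b') / 2 * ((N : ℝ) - S - l) ≤ b * (1 - l) / (1 + l) * ((N : ℝ) - S - l) :=
        mul_le_mul_of_nonneg_right hlb (by linarith)
      refine le_trans ?_ e2
      rw [div_lt_iff₀ (by linarith)] at hM
      nlinarith
    · intro k hk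
      by_cases hgk : T^[k] w ∈ aaGood κ i v b T X Port S
      · obtain ⟨k', hk', hTk', N, hN, hcount⟩ := hgk
        rw [Finset.mem_Icc] at hk'
        rw [Finset.mem_range] at hN
        refine ⟨k + k', N, by omega, ?_, Or.inl ⟨?_, by omega⟩⟩
        · show T^[k + k'] w ∈ Port
          rw [add_comm, Function.iterate_add_apply]; exact hTk'
        · rw [aa_zc κ i h.equiv] at hcount
          exact hcount
      · obtain ⟨k', hk', hTk', N, hN, hcount⟩ := (hw k).1 hk
        have hfin := (hw k).2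
        refine ⟨k + k', N, by omega, ?_, Or.inr ⟨?_, ?_⟩⟩
        · show T^[k + k'] w ∈ Port
          rw [add_comm, Function.iterate_add_apply]; exact hTk'
        · rw [aa_zc κ i h.equiv] at hcount
          exact hcount
        · show (N : ℝ) ≤ f (T^[k] w)
          have : f (T^[k] w) = (c (T^[k] w)).toReal := by
            rw [hf]
            unfold aaF
            rw [if_pos ⟨hk, hgk⟩]
          rw [this]
          have h2 := ENNReal.toReal_mono hfin.ne hN
          simpa using h2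
  have hAm := aa_meas_ev κ (0 : V d) b'
  have hlaw : (prodBern (El d) p).real {ω | ∀ᶠ N : ℕ in atTop, Real.exp (b' * N) ≤ Pn κ ω N 0}
      = P.real (X ⁻¹' {ω | ∀ᶠ N : ℕ in atTop, Real.exp (b' * N) ≤ Pn κ ω N (0 : V d)}) := by
    rw [← h.law, measureReal_def, Measure.map_apply h.hX hAm, measureReal_def]
  rw [hlaw]
  refine hpos.trans_le ?_
  rw [measureReal_def, measureReal_def]
  exact ENNReal.toReal_mono (measure_ne_top _ _) (measure_mono_ae hincl)

/-- from positive probability to almost sure existence -/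
theorem good_ae (κ : Kind) (p : unitInterval) (i : Fin d) (b' : ℝ)
    (h : 0 < (prodBern (El d) p).real
      {ω | ∀ᶠ N : ℕ in atTop, Real.exp (b' * N) ≤ Pn κ ω N (0 : V d)}) :
    ∀ᵐ ω ∂(prodBern (El d) p), ∃ x : V d, ∀ᶠ N : ℕ in atTop, Real.exp (b' * N) ≤ Pn κ ω N x := by
  classical
  obtain ⟨M, hM⟩ : ∃ M : ℕ, 0 < (prodBern (El d) p).real
      {ω | ∀ N : ℕ, M ≤ N → Real.exp (b' * N) ≤ Pn κ ω N (0 : V d)} := by
    by_contra hcon
    push Not at hcon
    have h0 : ∀ M : ℕ, (prodBern (El d) p)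
        {ω | ∀ N : ℕ, M ≤ N → Real.exp (b' * N) ≤ Pn κ ω N (0 : V d)} = 0 := by
      intro M
      have h1 : (prodBern (El d) p).real
        {ω | ∀ N : ℕ, M ≤ N → Real.exp (b' * N) ≤ Pn κ ω N (0 : V d)} = 0 :=
        le_antisymm (hcon M) measureReal_nonneg
      rw [measureReal_def, ENNReal.toReal_eq_zero_iff] at h1
      exact h1.resolve_right (measure_ne_top _ _)
    have h2 : {ω : El d → Bool | ∀ᶠ N : ℕ in atTop, Real.exp (b' * N) ≤ Pn κ ω N (0 : V d)} =
        ⋃ M : ℕ, {ω | ∀ N : ℕ, M ≤ N → Real.exp (b' * N) ≤ Pn κ ω N (0 : V d)} := by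
      ext ω
      simp [eventually_atTop]
    rw [h2, measureReal_def, measure_iUnion_null h0] at h
    simp at h
  set vk : ℕ → V d := fun k => Pi.single i (k : ℤ) with hvk
  set sh : ℕ → El d → El d := fun k e => e.map (fun x => x + vk k) with hsh
  have hinj : ∀ k, Function.Injective (sh k) := by
    intro k
    apply Sym2.map.injective
    intro a b hab
    simpa using hab
  have hfar : ∀ Λ : Finset (El d), ∃ M : ℕ, 1 ≤ M ∧ ∀ k l : ℕ, k ≠ l → ∀ i ∈ Λ, ∀ j ∈ Λ,
      sh (M * k) i ≠ sh (M * l) j := by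
    intro Λ
    obtain ⟨B, hB⟩ := SeedInf_bound i Λ
    refine ⟨2 * B + 1, by omega, ?_⟩
    intro k l hkl e he j hj heq
    obtain ⟨a, ha⟩ : ∃ a, a ∈ e := by
      induction e using Sym2.ind with
      | _ a b => exact ⟨a, Sym2.mem_mk_left _ _⟩
    have h1 : a + vk ((2 * B + 1) * k) ∈ sh ((2 * B + 1) * l) j := by
      rw [← heq]
      exact Sym2.mem_map.2 ⟨a, ha, rfl⟩
    obtain ⟨b, hb, hab⟩ := Sym2.mem_map.1 h1
    have h2 := congrFun hab i
    simp only [hvk, Pi.add_apply, Pi.single_eq_same] at h2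
    have h3 := abs_le.1 (hB e he a ha)
    have h4 := abs_le.1 (hB j hj b hb)
    push_cast at h2
    have h5 : (2 * (B : ℤ) + 1) * ((k : ℤ) - l) = b i - a i := by linarith
    rcases Nat.lt_or_gt_of_ne hkl with h | h
    · have h6 : (k : ℤ) - l ≤ -1 := by
        have : (k : ℤ) + 1 ≤ l := by exact_mod_cast h
        linarith
      have h7 : (2 * (B : ℤ) + 1) * ((k : ℤ) - l) ≤ (2 * (B : ℤ) + 1) * (-1) :=
        mul_le_mul_of_nonneg_left h6 (by positivity)
      linarith [h3.1, h3.2, h4.1, h4.2]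
    · have h6 : 1 ≤ (k : ℤ) - l := by
        have : (l : ℤ) + 1 ≤ k := by exact_mod_cast h
        linarith
      have h7 : (2 * (B : ℤ) + 1) * 1 ≤ (2 * (B : ℤ) + 1) * ((k : ℤ) - l) :=
        mul_le_mul_of_nonneg_left h6 (by positivity)
      linarith [h3.1, h3.2, h4.1, h4.2]
  set A : ℕ → Set (El d → Bool) := fun n =>
    {ω | ∀ N : ℕ, M ≤ N → N ≤ M + n → Real.exp (b' * N) ≤ Pn κ ω N (0 : V d)} with hA
  have hanti : Antitone A := by
    intro a c hac ω hω N h1 h2
    exact hω N h1 (h2.trans (by omega))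
  have hdep : ∀ n, ∃ Λ : Finset (El d), On (Λ : Set (El d)) (A n) := by
    intro n
    refine ⟨(Finset.range (M + n + 1)).biUnion fun N => suppP κ N {(0 : V d)}, ?_⟩
    have key : ∀ ω ω' : El d → Bool, (∀ e ∈ (((Finset.range (M + n + 1)).biUnion fun N =>
        suppP κ N {(0 : V d)} : Finset (El d)) : Set (El d)), ω e = ω' e) → ω ∈ A n → ω' ∈ A n := by
      intro ω ω' hωω hω N h1 h2
      have h3 := hω N h1 h2
      rwa [Pn_congr κ N (Finset.mem_singleton_self (0 : V d)) (fun e he => hωω e (by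
        rw [Finset.mem_coe, Finset.mem_biUnion]
        exact ⟨N, Finset.mem_range.2 (by omega), he⟩))] at h3
    intro ω ω' hωω
    exact ⟨key ω ω' hωω, key ω' ω fun e he => (hωω e he).symm⟩
  have hpos : 0 < (mu (fun _ : El d => p)).real (⋂ n, A n) := by
    rw [mu_const]
    refine lt_of_lt_of_le hM (measureReal_mono fun ω hω => ?_)
    rw [Set.mem_iInter]
    exact fun n N h1 _ => hω N h1
  have hres := erg (fun _ : El d => p) sh hinj (fun _ _ => rfl) hfar A hanti hdep hpos
  rw [mu_const] at hres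
  filter_upwards [hres] with ω hω
  obtain ⟨k, hk⟩ := hω
  refine ⟨vk k, ?_⟩
  filter_upwards [eventually_ge_atTop M] with N hN
  have h1 := hk N N hN (by omega)
  have h2 := Pn_shift κ ω N (0 : V d) (vk k)
  rw [zero_add] at h2
  rw [h2]
  exact h1

/-- ABSTRACT THEOREM A -/
theorem absA {κ : Kind} {p : unitInterval} {i : Fin d} {v : V d} {b : ℝ} {Ω : Type*}
    [MeasurableSpace Ω] {P : Measure Ω} {T : Ω → Ω} {X : Ω → El d → Bool} {Port : Set Ω}
    {c : Ω → ENNReal} (h : AbsA κ p i v b P T X Port c) {b' : ℝ} (hb' : b' < b) :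
    ∀ᵐ ω ∂(prodBern (El d) p), ∃ x : V d, ∀ᶠ N : ℕ in atTop, Real.exp (b' * N) ≤ Pn κ ω N x :=
  good_ae κ p i b' (absA_pos h hb')

end Pool.Agent.H41.QA
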