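import Pool.Agent.H17.QA.Defs

/-!
# QA module AbsDefs: the abstract Theorem A, setting

`HS i x y`: the half open slab between the hyperplanes (coordinate `i`) through `x` and through `y`,
together with `y`. Links are families of open self-avoiding paths from `x` to `y` inside `HS i x y`;
links from `0` to `v`, from `v` to `v'`, ... concatenate to self-avoiding paths.

`AbsA`: a probability space with a measure preserving map `T` and an equivariant map `X` to the
percolation configurations (extra randomness allowed, for example a second independent layer).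
-/

open MeasureTheory Filter Topology
open Pool.Agent.H17.IIC Pool.Agent.H41.QC Pool.Agent.H47.GM Pool.Agent.H17.QA

namespace Pool.Agent.H41.QA

variable {d : ℕ}

/-- half open slab between the hyperplanes through `x` and `y`, with `y` added -/
def HS (i : Fin d) (x y : V d) : Set (V d) := {v | x i ≤ v i ∧ (v i < y i ∨ v = y)}

/-- hypotheses of the abstract Theorem A -/
structure AbsA (κ : Kind) (p : unitInterval) (i : Fin d) (v : V d) (b : ℝ) {Ω : Type*}
    [MeasurableSpace Ω] (P : Measure Ω) (T : Ω → Ω) (X : Ω → El d → Bool) (Port : Set Ω)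
    (c : Ω → ENNReal) : Prop where
  hv : 1 ≤ v i
  hb : 0 ≤ b
  prob : IsProbabilityMeasure P
  hT : MeasurePreserving T P P
  hX : Measurable X
  law : P.map X = prodBern (El d) p
  equiv : ∀ w, X (T w) = tr (fun y => y + v) (X w)
  port_meas : MeasurableSet Port
  port_pos : 0 < P.real Port
  cost_meas : Measurable c
  cost_int : ∫⁻ w, c w ∂P ≠ ⊤
  /-- (H1) every port has a plain link to a later port, with integrable cost -/
  plain : ∀ᵐ w ∂P, w ∈ Port → ∃ k : ℕ, 1 ≤ k ∧ T^[k] w ∈ Port ∧ ∃ N : ℕ, (N : ENNReal) ≤ c w ∧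
    1 ≤ Zc κ (X w) (HS i 0 ((k : ℤ) • v)) 0 ((k : ℤ) • v) N
  /-- (H2) almost every port has a rich link to a later port -/
  rich : ∀ᵐ w ∂P, w ∈ Port → ∃ k : ℕ, 1 ≤ k ∧ T^[k] w ∈ Port ∧ ∃ N : ℕ,
    Real.exp (b * N) ≤ Zc κ (X w) (HS i 0 ((k : ℤ) • v)) 0 ((k : ℤ) • v) N

end Pool.Agent.H41.QA
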