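import Pool.Agent.H41.QA.Limit
import Pool.Agent.H41.QC.Final2
import Pool.Agent.H66.RS.Exists

/-!
# QA module Final: the quenched connective constant for every `p` different from the critical value
-/

open MeasureTheory Filter Topology
open Pool.Agent.H17.IIC Pool.Agent.H41.QC Pool.Agent.H47.GM Pool.Agent.H17.QA

namespace Pool.Agent.H41.QA

/-- the critical parameter -/
noncomputable def pcr (κ : Kind) (d : ℕ) : ℝ :=
  sSup {x : ℝ | ∃ p : unitInterval, (p : ℝ) = x ∧ theta κ d p = 0}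

lemma pcr_bdd (κ : Kind) (d : ℕ) :
    BddAbove {x : ℝ | ∃ p : unitInterval, (p : ℝ) = x ∧ theta κ d p = 0} := by
  refine ⟨1, ?_⟩
  rintro _ ⟨p, rfl, -⟩
  exact p.2.2

lemma pcr_nonneg (κ : Kind) (d : ℕ) : 0 ≤ pcr κ d := by
  apply Real.sSup_nonneg
  rintro _ ⟨p, rfl, -⟩
  exact p.2.1

lemma theta_nonneg' (κ : Kind) (d : ℕ) (p : unitInterval) : 0 ≤ theta κ d p := measureReal_nonneg

lemma theta_of_lt (κ : Kind) (d : ℕ) (p : unitInterval) (h : (p : ℝ) < pcr κ d) :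
    theta κ d p = 0 := by
  have hne : {x : ℝ | ∃ p : unitInterval, (p : ℝ) = x ∧ theta κ d p = 0}.Nonempty := by
    by_contra hcon
    rw [Set.not_nonempty_iff_eq_empty] at hcon
    unfold pcr at h
    rw [hcon, Real.sSup_empty] at h
    exact absurd h (not_lt.2 p.2.1)
  obtain ⟨x, ⟨q, rfl, hq⟩, hpq⟩ := exists_lt_of_lt_csSup hne h
  exact le_antisymm ((theta_mono κ d hpq.le).trans hq.le) (theta_nonneg' κ d p)

lemma theta_of_gt (κ : Kind) (d : ℕ) (p : unitInterval) (h : pcr κ d < p) :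
    0 < theta κ d p := by
  refine lt_of_le_of_ne (theta_nonneg' κ d p) fun h0 => ?_
  exact absurd (le_csSup (pcr_bdd κ d) ⟨p, rfl, h0.symm⟩) (not_le.2 h)

/-- almost surely no infinite cluster if `theta = 0` -/
lemma ae_fin_of_theta (κ : Kind) (d : ℕ) (p : unitInterval) (h0 : theta κ d p = 0) :
    ∀ᵐ ω ∂(prodBern (El d) p), ¬ {y | (Gr κ ω).Reachable 0 y}.Infinite := by
  unfold theta at h0
  have h1 : (prodBern (El d) p) {ω | {y | (Gr κ ω).Reachable 0 y}.Infinite} = 0 := by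
    rw [measureReal_def, ENNReal.toReal_eq_zero_iff] at h0
    rcases h0 with h0 | h0
    · exact h0
    · exact absurd h0 (measure_ne_top _ _)
  rw [measure_eq_zero_iff_ae_notMem] at h1
  filter_upwards [h1] with ω hω hinf
  exact hω hinf

lemma theta_of_ae (κ : Kind) (d : ℕ) (p : unitInterval)
    (h : ∀ᵐ ω ∂(prodBern (El d) p), ¬ {y | (Gr κ ω).Reachable 0 y}.Infinite) :
    theta κ d p = 0 := by
  unfold theta
  rw [measureReal_def]
  have : (prodBern (El d) p) {ω | {y | (Gr κ ω).Reachable 0 y}.Infinite} = 0 := by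
    rw [measure_eq_zero_iff_ae_notMem]
    exact h
  rw [this]
  rfl

/-- the limit for every supercritical parameter -/
theorem limit_above {κ : Kind} {d : ℕ} (hd : 2 ≤ d) (p₀ p : unitInterval) (h : (p₀ : ℝ) < p)
    (hth : 0 < theta κ d p₀) :
    ∀ᵐ ω ∂(prodBern (El d) p), {y | (Gr κ ω).Reachable 0 y}.Infinite →
      Tendsto (fun N : ℕ => (Pn κ ω N (0 : V d) : ℝ) ^ (1 / (N : ℝ))) atTop
        (𝓝 (Real.exp (rate κ d p))) := by
  obtain ⟨n, rfl⟩ : ∃ n, d = n + 2 := ⟨d - 2, by omega⟩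
  obtain ⟨RS⟩ := Pool.Agent.H66.RS.roadSys_exists κ n p₀ p h hth
  exact limit_rs RS (p₀.2.1.trans_lt h)

/-- the limit for every parameter different from the critical one -/
theorem limit_ne {κ : Kind} {d : ℕ} (hd : 2 ≤ d) (p : unitInterval) (h : (p : ℝ) ≠ pcr κ d) :
    ∀ᵐ ω ∂(prodBern (El d) p), {y | (Gr κ ω).Reachable 0 y}.Infinite →
      Tendsto (fun N : ℕ => (Pn κ ω N (0 : V d) : ℝ) ^ (1 / (N : ℝ))) atTop
        (𝓝 (Real.exp (rate κ d p))) := by
  rcases lt_or_gt_of_ne h with h | h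
  · filter_upwards [ae_fin_of_theta κ d p (theta_of_lt κ d p h)] with ω hω hinf
    exact absurd hinf hω
  · have h0 := pcr_nonneg κ d
    have hp1 := p.2.2
    set p₀ : unitInterval := ⟨(pcr κ d + p) / 2, by constructor <;> linarith⟩ with hp₀
    have e : (p₀ : ℝ) = (pcr κ d + p) / 2 := rfl
    exact limit_above hd p₀ p (by rw [e]; linarith) (theta_of_gt κ d p₀ (by rw [e]; linarith))

lemma qa_up (κ : Kind) (d : ℕ) (p : unitInterval) :
    ∀ᵐ ω ∂(prodBern (El d) p), ∀ c : ℝ, Real.exp (rate κ d p) < c → ∀ K : ℕ,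
      ∀ᶠ N : ℕ in atTop, ∀ x : V d, (∀ i, |x i| ≤ K * N) → (Pn κ ω N x : ℝ) ≤ c ^ N := by
  filter_upwards [rate_up κ d p] with ω hω
  intro c hc K
  have hc0 : 0 < c := (Real.exp_pos _).trans hc
  have hη : 0 < Real.log c - rate κ d p := by
    have := (Real.lt_log_iff_exp_lt hc0).mpr hc
    linarith
  filter_upwards [hω _ hη (max K 1)] with N hN x hx
  refine (hN N ?_ x ?_).trans (le_of_eq ?_)
  · have h1 : 1 ≤ max K 1 := le_max_right _ _
    nlinarith [Nat.mul_le_mul_right N h1]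
  · intro i
    refine (hx i).trans ?_
    push_cast
    apply mul_le_mul_of_nonneg_right _ (by positivity)
    exact_mod_cast le_max_left _ _
  · rw [← Real.rpow_natCast c N, Real.rpow_def_of_pos hc0]
    congr 1
    ring

lemma bondInf_iff {d : ℕ} (ω : Sym2 (Fin d → ℤ) → Bool) :
    BondInf ω ↔ {y | (Gr Kind.bond ω).Reachable (0 : V d) y}.Infinite := by
  refine ⟨bondInf_imp ω, fun h => ?_⟩
  refine Set.Infinite.mono ?_ h
  rintro y ⟨w⟩
  obtain ⟨N, γ, -, hγ, hl⟩ := (bond_joined_iff ω 0 y (w.length : ℝ)).2 ⟨w, le_rfl⟩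
  exact ⟨N, γ, hγ, hl⟩

lemma siteInf_iff {d : ℕ} (ω : Sym2 (Fin d → ℤ) → Bool) :
    SiteInf (fun x => ω s(x, x)) ↔ {y | (Gr Kind.site ω).Reachable (0 : V d) y}.Infinite := by
  refine ⟨siteInf_imp ω, fun h => ?_⟩
  have h0 : ω s((0 : V d), (0 : V d)) = true := by
    obtain ⟨y, ⟨w⟩, hy0⟩ := h.exists_notMem_finset {(0 : V d)}
    cases w with
    | nil => simp at hy0
    | cons hadj _ => exact hadj.2.1
  refine Set.Infinite.mono ?_ h
  rintro y ⟨w⟩
  obtain ⟨N, γ, -, hγ, hl⟩ := (site_joined_iff ω 0 y (w.length : ℝ) h0).2 ⟨w, le_rfl⟩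
  exact ⟨N, γ, hγ, hl⟩

/-- THE FINAL THEOREM -/
theorem final_qa (d : ℕ) (hd : 2 ≤ d) :
    ∃ (pb ps : ℝ) (μb μs : unitInterval → ℝ), Monotone μb ∧ Monotone μs ∧
      -- bond percolation
      (∀ p : unitInterval,
        1 ≤ μb p ∧
        ((p : ℝ) < pb → ∀ᵐ ω ∂(prodBern (Sym2 (Fin d → ℤ)) p), ¬ BondInf ω) ∧
        (pb < (p : ℝ) → ¬ ∀ᵐ ω ∂(prodBern (Sym2 (Fin d → ℤ)) p), ¬ BondInf ω) ∧
        (∀ᵐ ω ∂(prodBern (Sym2 (Fin d → ℤ)) p), ∀ c : ℝ, μb p < c → ∀ K : ℕ, ∀ᶠ N : ℕ in atTop,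
          ∀ x : Fin d → ℤ, (∀ i, |x i| ≤ K * N) → (bondZx ω N x : ℝ) ≤ c ^ N) ∧
        ((p : ℝ) ≠ pb → ∀ᵐ ω ∂(prodBern (Sym2 (Fin d → ℤ)) p), BondInf ω →
          Tendsto (fun N : ℕ => (bondZx ω N 0 : ℝ) ^ (1 / (N : ℝ))) atTop (𝓝 (μb p)))) ∧
      -- site percolation
      (∀ p : unitInterval,
        1 ≤ μs p ∧
        ((p : ℝ) < ps → ∀ᵐ ω ∂(prodBern (Fin d → ℤ) p), ¬ SiteInf ω) ∧
        (ps < (p : ℝ) → ¬ ∀ᵐ ω ∂(prodBern (Fin d → ℤ) p), ¬ SiteInf ω) ∧
        (∀ᵐ ω ∂(prodBern (Fin d → ℤ) p), ∀ c : ℝ, μs p < c → ∀ K : ℕ, ∀ᶠ N : ℕ in atTop,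
          ∀ x : Fin d → ℤ, (∀ i, |x i| ≤ K * N) → (siteZx ω N x : ℝ) ≤ c ^ N) ∧
        ((p : ℝ) ≠ ps → ∀ᵐ ω ∂(prodBern (Fin d → ℤ) p), SiteInf ω →
          Tendsto (fun N : ℕ => (siteZx ω N 0 : ℝ) ^ (1 / (N : ℝ))) atTop (𝓝 (μs p)))) := by
  refine ⟨pcr .bond d, pcr .site d, fun p => Real.exp (rate .bond d p),
    fun p => Real.exp (rate .site d p), fun p q h => Real.exp_le_exp.mpr (rate_mono .bond d h),
    fun p q h => Real.exp_le_exp.mpr (rate_mono .site d h), ?_, ?_⟩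
  · intro p
    refine ⟨Real.one_le_exp (rate_nonneg .bond d p), ?_, ?_, ?_, ?_⟩
    · intro h
      filter_upwards [ae_fin_of_theta .bond d p (theta_of_lt .bond d p h)] with ω hω hinf
      exact hω (bondInf_imp ω hinf)
    · intro h hcon
      have h1 := theta_of_gt .bond d p h
      have h2 := theta_of_ae .bond d p (by
        filter_upwards [hcon] with ω hω hinf
        exact hω ((bondInf_iff ω).2 hinf))
      linarith
    · simp only [bondZx_eq]
      exact qa_up .bond d p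
    · intro h
      filter_upwards [limit_ne (κ := .bond) hd p h] with ω hω hinf
      simp only [bondZx_eq]
      exact hω (bondInf_imp ω hinf)
  · intro p
    refine ⟨Real.one_le_exp (rate_nonneg .site d p), ?_, ?_, ?_, ?_⟩
    · intro h
      apply Final_transfer
      filter_upwards [ae_fin_of_theta .site d p (theta_of_lt .site d p h)] with ω hω hinf
      exact hω (siteInf_imp ω hinf)
    · intro h hcon
      have h1 := theta_of_gt .site d p h
      have h2 := theta_of_ae .site d p (by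
        filter_upwards [Final_transfer' d p _ hcon] with ω hω hinf
        exact hω ((siteInf_iff ω).2 hinf))
      linarith
    · apply Final_transfer
      simp only [siteZx_eq]
      exact qa_up .site d p
    · intro h
      apply Final_transfer
      filter_upwards [limit_ne (κ := .site) hd p h] with ω hω hinf
      simp only [siteZx_eq]
      exact hω (siteInf_imp ω hinf)

end Pool.Agent.H41.QA
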