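import Pool.Agent.H41.QA.AbsDefs
import Pool.Agent.H41.QA.ListPath

/-!
# QA module Greedy: the deterministic part of the abstract Theorem A

Ports are the points `k v` with `Pt k`. Every port has a link to a later port: either rich
(`exp (b n)` paths, `n ≤ S`) or plain (one path, `n ≤ f k`). If `∑_(j < m) f j ≤ l m` for all `m`,
`0 ≤ l ≤ 1`, then `Pn N 0` is at least `exp (b (1-l) (N - S - l) / (1 + l))`.
PROOF. Claim for all `N`: there are a port `k`, a length `L` with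
`k ≤ L ≤ N`, `Zc (HS 0 (k v)) 0 (k v) L ≥ exp (b (L - F k))` (`F k = ∑_(j<k) f j`) and a link from `k` of
length `n` with `N < L + n`. Induction on `N`: if `N + 1 = L + n` take the next port.
-/

open MeasureTheory Filter Topology
open Pool.Agent.H17.IIC Pool.Agent.H41.QC Pool.Agent.H47.GM Pool.Agent.H17.QA

namespace Pool.Agent.H41.QA

variable {d : ℕ}

lemma fam_ne_of_pos {κ : Kind} {ω : El d → Bool} {A : Set (V d)} {x y : V d} {N : ℕ}
    (h : 1 ≤ Zc κ ω A x y N) : (Fam κ ω A x y N).Nonempty := by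
  rw [← Set.ncard_pos (fam_finite κ ω A x y N)]
  exact h

lemma fam_disp {κ : Kind} {ω : El d → Bool} {A : Set (V d)} {x y : V d} {N : ℕ}
    (h : (Fam κ ω A x y N).Nonempty) (i : Fin d) : |y i - x i| ≤ N := by
  obtain ⟨l, h1, h2, h3, h4, -⟩ := h
  obtain ⟨s, hs1, hs2⟩ := Split_to_mem (lp_split x h1 h2) (lp_getD_zero h3)
  have e := hs2 N le_rfl
  have hy : l.getD N x = y := by
    rw [List.getD_eq_getElem _ _ (by omega)]
    rw [List.getLast?_eq_getElem?, List.getElem?_eq_getElem (by omega)] at h4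
    simp only [Option.some.injEq] at h4
    rw [← h4]
    congr 1
    omega
  rw [hy] at e
  rw [← e, Pi.add_apply, add_sub_cancel_left]
  exact abs_pos_le s N i

lemma zc_zero {κ : Kind} {ω : El d → Bool} {A A' : Set (V d)} {x z : V d} {n : ℕ} (hx : x ∈ A)
    (h : (Fam κ ω A' x z n).Nonempty) : 1 ≤ Zc κ ω A x x 0 := by
  obtain ⟨l, h1, h2, h3, -, -⟩ := h
  obtain ⟨t, rfl⟩ : ∃ t, l = x :: t := by
    cases l with
    | nil => simp at h3
    | cons a t => simp only [List.head?_cons, Option.some.injEq] at h3; exact ⟨t, by rw [h3]⟩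
  have h4 := op_take h1 1
  simp only [List.take_succ_cons, List.take_zero] at h4
  have : (Fam κ ω A x x 0).Nonempty := ⟨[x], h4, rfl, rfl, rfl, by simpa using hx⟩
  exact (Set.ncard_pos (fam_finite κ ω A x x 0)).2 this

theorem greedy (κ : Kind) (ω : El d → Bool) (i : Fin d) (v : V d) (hv : 1 ≤ v i) (b l : ℝ)
    (hb : 0 ≤ b) (hl0 : 0 ≤ l) (hl1 : l ≤ 1) (S : ℕ) (Pt : ℕ → Prop) (f : ℕ → ℝ)
    (hf0 : ∀ k, 0 ≤ f k) (h0 : Pt 0)
    (hstep : ∀ k, Pt k → ∃ k' n : ℕ, k < k' ∧ Pt k' ∧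
      ((Real.exp (b * n) ≤ Zc κ ω (HS i ((k : ℤ) • v) ((k' : ℤ) • v)) ((k : ℤ) • v) ((k' : ℤ) • v) n
          ∧ n ≤ S) ∨
        (1 ≤ Zc κ ω (HS i ((k : ℤ) • v) ((k' : ℤ) • v)) ((k : ℤ) • v) ((k' : ℤ) • v) n
          ∧ (n : ℝ) ≤ f k)))
    (hsum : ∀ m : ℕ, ∑ j ∈ Finset.range m, f j ≤ l * m) (N : ℕ) :
    Real.exp (b * (1 - l) * ((N - S - l) / (1 + l))) ≤ Pn κ ω N 0 := by
  set F : ℕ → ℝ := fun k => ∑ j ∈ Finset.range k, f j with hF
  have hFmono : Monotone F := by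
    intro a c hac
    exact Finset.sum_le_sum_of_subset_of_nonneg (Finset.range_mono hac) fun j _ _ => hf0 j
  have hFs : ∀ k, F (k + 1) = F k + f k := fun k => Finset.sum_range_succ f k
  -- every link has a nonempty family, positive length and displacement at most its length
  have hlink : ∀ k k' n : ℕ, k < k' →
      ((Real.exp (b * n) ≤ Zc κ ω (HS i ((k : ℤ) • v) ((k' : ℤ) • v)) ((k : ℤ) • v) ((k' : ℤ) • v) n
          ∧ n ≤ S) ∨
        (1 ≤ Zc κ ω (HS i ((k : ℤ) • v) ((k' : ℤ) • v)) ((k : ℤ) • v) ((k' : ℤ) • v) n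
          ∧ (n : ℝ) ≤ f k)) →
      1 ≤ Zc κ ω (HS i ((k : ℤ) • v) ((k' : ℤ) • v)) ((k : ℤ) • v) ((k' : ℤ) • v) n ∧
        k' ≤ k + n := by
    intro k k' n hkk h
    have h1 : 1 ≤ Zc κ ω (HS i ((k : ℤ) • v) ((k' : ℤ) • v)) ((k : ℤ) • v) ((k' : ℤ) • v) n := by
      rcases h with ⟨h, -⟩ | ⟨h, -⟩
      · have h2 : (0 : ℝ) < Zc κ ω (HS i ((k : ℤ) • v) ((k' : ℤ) • v)) ((k : ℤ) • v)
          ((k' : ℤ) • v) n := (Real.exp_pos _).trans_le h
        have h3 : 0 < Zc κ ω (HS i ((k : ℤ) • v) ((k' : ℤ) • v)) ((k : ℤ) • v)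
          ((k' : ℤ) • v) n := by exact_mod_cast h2
        exact h3
      · exact h
    refine ⟨h1, ?_⟩
    have h2 := fam_disp (fam_ne_of_pos h1) i
    rw [Pi.smul_apply, Pi.smul_apply, smul_eq_mul, smul_eq_mul, ← sub_mul] at h2
    have h3 : (0 : ℤ) < (k' : ℤ) - k := by omega
    have h4 : (k' : ℤ) - k ≤ |((k' : ℤ) - k) * v i| := by
      refine le_trans ?_ (le_abs_self _)
      nlinarith
    omega
  have claim : ∀ N : ℕ, ∃ k L k' n : ℕ, Pt k ∧ k ≤ L ∧ L ≤ N ∧ N < L + n ∧ k < k' ∧ Pt k' ∧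
      Real.exp (b * (L - F k)) ≤ Zc κ ω (HS i 0 ((k : ℤ) • v)) 0 ((k : ℤ) • v) L ∧
      ((Real.exp (b * n) ≤ Zc κ ω (HS i ((k : ℤ) • v) ((k' : ℤ) • v)) ((k : ℤ) • v) ((k' : ℤ) • v) n
          ∧ n ≤ S) ∨
        (1 ≤ Zc κ ω (HS i ((k : ℤ) • v) ((k' : ℤ) • v)) ((k : ℤ) • v) ((k' : ℤ) • v) n
          ∧ (n : ℝ) ≤ f k)) := by
    intro N
    induction N with
    | zero =>
      obtain ⟨k', n, hk, hP, hlk⟩ := hstep 0 h0
      obtain ⟨h1, h2⟩ := hlink 0 k' n hk hlk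
      refine ⟨0, 0, k', n, h0, le_rfl, le_rfl, by omega, hk, hP, ?_, hlk⟩
      have hne := fam_ne_of_pos h1
      simp only [Nat.cast_zero, zero_smul] at hne
      have h3 : 1 ≤ Zc κ ω (HS i 0 (((0 : ℕ) : ℤ) • v)) 0 (((0 : ℕ) : ℤ) • v) 0 := by
        simp only [Nat.cast_zero, zero_smul]
        exact zc_zero (by simp [HS]) hne
      have h4 : (1 : ℝ) ≤ Zc κ ω (HS i 0 (((0 : ℕ) : ℤ) • v)) 0 (((0 : ℕ) : ℤ) • v) 0 := by
        exact_mod_cast h3
      refine le_trans ?_ h4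
      simp [hF]
    | succ N ih =>
      obtain ⟨k, L, k', n, hPk, hkL, hLN, hN, hkk, hPk', hcount, hlk⟩ := ih
      by_cases hcase : N + 1 < L + n
      · exact ⟨k, L, k', n, hPk, hkL, by omega, hcase, hkk, hPk', hcount, hlk⟩
      · have hN1 : N + 1 = L + n := by omega
        obtain ⟨h1, h2⟩ := hlink k k' n hkk hlk
        obtain ⟨k'', n', hk'', hPk'', hlk'⟩ := hstep k' hPk'
        obtain ⟨h1', h2'⟩ := hlink k' k'' n' hk'' hlk'
        refine ⟨k', L + n, k'', n', hPk', by omega, by omega, by omega, hk'', hPk'', ?_, hlk'⟩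
        have hki : (k : ℤ) * v i < (k' : ℤ) * v i := by
          have : (k : ℤ) < k' := by omega
          nlinarith
        have hk0 : 0 ≤ (k : ℤ) * v i := by positivity
        have hAA : HS i 0 ((k : ℤ) • v) ∩ HS i ((k : ℤ) • v) ((k' : ℤ) • v) ⊆ {(k : ℤ) • v} := by
          rintro w ⟨⟨-, hw | hw⟩, ⟨hw2, -⟩⟩
          · omega
          · exact hw
        have hUU : HS i 0 ((k : ℤ) • v) ∪ HS i ((k : ℤ) • v) ((k' : ℤ) • v) ⊆
            HS i 0 ((k' : ℤ) • v) := by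
          rintro w (⟨hw1, hw2⟩ | ⟨hw1, hw2⟩)
          · refine ⟨hw1, Or.inl ?_⟩
            rcases hw2 with hw2 | hw2
            · refine hw2.trans ?_
              simpa using hki
            · rw [hw2]; simpa using hki
          · refine ⟨?_, hw2⟩
            refine le_trans ?_ hw1
            simpa using hk0
        have hmul := zc_mul κ ω 0 ((k : ℤ) • v) ((k' : ℤ) • v) hAA L n
        have hmul2 := hmul.trans (zc_mono κ ω hUU 0 ((k' : ℤ) • v) (L + n))
        have hmul3 : (Zc κ ω (HS i 0 ((k : ℤ) • v)) 0 ((k : ℤ) • v) L : ℝ) *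
            Zc κ ω (HS i ((k : ℤ) • v) ((k' : ℤ) • v)) ((k : ℤ) • v) ((k' : ℤ) • v) n ≤
            Zc κ ω (HS i 0 ((k' : ℤ) • v)) 0 ((k' : ℤ) • v) (L + n) := by exact_mod_cast hmul2
        refine le_trans ?_ hmul3
        rcases hlk with ⟨hr, -⟩ | ⟨hr, hf⟩
        · have hFk : F k ≤ F k' := hFmono hkk.le
          calc Real.exp (b * (((L + n : ℕ) : ℝ) - F k'))
              ≤ Real.exp (b * (L - F k)) * Real.exp (b * n) := by
                rw [← Real.exp_add, Real.exp_le_exp]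
                push_cast
                nlinarith
            _ ≤ _ := mul_le_mul hcount hr (Real.exp_pos _).le (Nat.cast_nonneg _)
        · have hFk : F (k + 1) ≤ F k' := hFmono (by omega)
          rw [hFs] at hFk
          have hr' : (1 : ℝ) ≤ Zc κ ω (HS i ((k : ℤ) • v) ((k' : ℤ) • v)) ((k : ℤ) • v)
            ((k' : ℤ) • v) n := by exact_mod_cast hr
          calc Real.exp (b * (((L + n : ℕ) : ℝ) - F k'))
              ≤ Real.exp (b * (L - F k)) * 1 := by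
                rw [mul_one, Real.exp_le_exp]
                push_cast
                apply mul_le_mul_of_nonneg_left _ hb
                linarith
            _ ≤ _ := mul_le_mul hcount hr' zero_le_one (Nat.cast_nonneg _)
  obtain ⟨k, L, k', n, hPk, hkL, hLN, hN, hkk, hPk', hcount, hlk⟩ := claim N
  obtain ⟨h1, h2⟩ := hlink k k' n hkk hlk
  have hAA : HS i 0 ((k : ℤ) • v) ∩ HS i ((k : ℤ) • v) ((k' : ℤ) • v) ⊆ {(k : ℤ) • v} := by
    rintro w ⟨⟨-, hw | hw⟩, ⟨hw2, -⟩⟩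
    · omega
    · exact hw
  have h3 := zc_trunc κ ω 0 ((k : ℤ) • v) ((k' : ℤ) • v) hAA L n h1 (N - L) (by omega)
  rw [show L + (N - L) = N by omega] at h3
  have h4 : (Zc κ ω (HS i 0 ((k : ℤ) • v)) 0 ((k : ℤ) • v) L : ℝ) ≤ Pn κ ω N 0 := by
    exact_mod_cast h3
  refine le_trans ?_ (hcount.trans h4)
  rw [Real.exp_le_exp, mul_assoc]
  apply mul_le_mul_of_nonneg_left _ hb
  have hkL' : (k : ℝ) ≤ L := by exact_mod_cast hkL
  have hFk : F k ≤ l * L := (hsum k).trans (mul_le_mul_of_nonneg_left hkL' hl0)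
  have hn : (n : ℝ) ≤ S + l * (L + 1) := by
    rcases hlk with ⟨-, h⟩ | ⟨-, h⟩
    · have : (n : ℝ) ≤ S := by exact_mod_cast h
      have : 0 ≤ l * (L + 1) := by positivity
      linarith
    · have h5 : f k ≤ F (k + 1) := by
        rw [hFs]
        have : 0 ≤ F k := Finset.sum_nonneg fun j _ => hf0 j
        linarith
      have h6 : F (k + 1) ≤ l * ((k + 1 : ℕ) : ℝ) := hsum (k + 1)
      push_cast at h6
      have h7 : l * ((k : ℝ) + 1) ≤ l * (L + 1) := mul_le_mul_of_nonneg_left (by linarith) hl0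
      have h8 : (0 : ℝ) ≤ S := Nat.cast_nonneg _
      linarith
  have hN' : (N : ℝ) ≤ L + n := by exact_mod_cast hN.le
  have h5 : ((N : ℝ) - S - l) / (1 + l) ≤ L := by
    rw [div_le_iff₀ (by linarith)]
    nlinarith
  have h6 : (1 - l) * (((N : ℝ) - S - l) / (1 + l)) ≤ (1 - l) * L :=
    mul_le_mul_of_nonneg_left h5 (by linarith)
  linarith

end Pool.Agent.H41.QA
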