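import Pool.Agent.H17.QA.ModDefs
import Pool.Agent.H41.QC.PropA
import Pool.Agent.H41.QC.UpperAll

/-!
# QA module Upper: the critical rate and the upper bound

`rate = inf {a ≥ 0 : ∑ q_j(a) < ∞}`. Borel-Cantelli gives the upper bound at dyadic scales for all starts in
`[-K 2^k, K 2^k]^d`.
-/

open MeasureTheory Filter Topology
open Pool.Agent.H17.IIC Pool.Agent.H41.QC Pool.Agent.H47.GM Pool.Agent.H17.QA

namespace Pool.Agent.H41.QA

variable {d : ℕ}

/-- the growth rate -/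
noncomputable def rate (κ : Kind) (d : ℕ) (p : unitInterval) : ℝ :=
  sInf {a : ℝ | 0 ≤ a ∧ Summable (qj κ (d := d) p a)}

theorem rate_nonneg (κ : Kind) (d : ℕ) (p : unitInterval) : 0 ≤ rate κ d p :=
  Real.sInf_nonneg fun _ ha => ha.1

lemma qj_nonneg (κ : Kind) (p : unitInterval) (a : ℝ) (j : ℕ) : 0 ≤ qj κ (d := d) p a j :=
  measureReal_nonneg

lemma qj_anti (κ : Kind) (p : unitInterval) {a a' : ℝ} (h : a ≤ a') (j : ℕ) :
    qj κ (d := d) p a' j ≤ qj κ (d := d) p a j := by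
  unfold qj
  refine measureReal_mono ?_ (measure_ne_top _ _)
  rintro ω ⟨x, hx, hx2⟩
  refine ⟨x, hx, le_trans ?_ hx2⟩
  rw [Real.exp_le_exp]
  exact mul_le_mul_of_nonneg_right h (by positivity)

lemma pn_le_exp (κ : Kind) (ω : El d → Bool) (N : ℕ) (x : V d) :
    (Pn κ ω N x : ℝ) ≤ Real.exp ((2 * d) * N) := by
  have h1 : (Pn κ ω N x : ℝ) ≤ ((saws d N).card : ℝ) := by
    exact_mod_cast Finset.card_le_card (Finset.filter_subset _ _)
  refine h1.trans ((card_saws_le d N).trans ?_)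
  rw [mul_comm (2 * (d : ℝ)) (N : ℝ), Real.exp_nat_mul]
  apply pow_le_pow_left₀ (by positivity)
  have := Real.add_one_le_exp (2 * (d : ℝ))
  linarith

lemma qj_zero (κ : Kind) (p : unitInterval) {a : ℝ} (h : 2 * (d : ℝ) < a) (j : ℕ) :
    qj κ (d := d) p a j = 0 := by
  unfold qj
  have : {ω : El d → Bool | ∃ x ∈ box (0 : V d) (2 ^ j), Real.exp (a * 2 ^ j) ≤ Pn κ ω (2 ^ j) x}
      = ∅ := by
    rw [Set.eq_empty_iff_forall_notMem]
    rintro ω ⟨x, -, hx⟩
    have h1 := hx.trans (pn_le_exp κ ω (2 ^ j) x)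
    rw [Real.exp_le_exp] at h1
    push_cast at h1
    have h2 : (0 : ℝ) < 2 ^ j := by positivity
    nlinarith
  rw [this]
  simp

/-- above the rate the `q_j` are summable (monotone in `a`; `q_j = 0` for large `a`) -/
theorem rate_lt (κ : Kind) (d : ℕ) (p : unitInterval) {a : ℝ} (h : rate κ d p < a) :
    Summable (qj κ (d := d) p a) := by
  have hne : {a : ℝ | 0 ≤ a ∧ Summable (qj κ (d := d) p a)}.Nonempty := by
    refine ⟨2 * d + 1, by positivity, ?_⟩
    have : qj κ (d := d) p (2 * d + 1) = fun _ => 0 := by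
      funext j
      exact qj_zero κ p (by linarith) j
    rw [this]
    exact summable_zero
  obtain ⟨a', ⟨h0, hs⟩, ha'⟩ := exists_lt_of_csInf_lt hne h
  exact Summable.of_nonneg_of_le (fun j => qj_nonneg κ p a j) (fun j => qj_anti κ p ha'.le j) hs

theorem lt_rate (κ : Kind) (d : ℕ) (p : unitInterval) {a : ℝ} (ha : 0 ≤ a) (h : a < rate κ d p) :
    ¬ Summable (qj κ (d := d) p a) := by
  intro hs
  have hb : BddBelow {a : ℝ | 0 ≤ a ∧ Summable (qj κ (d := d) p a)} := ⟨0, fun _ h => h.1⟩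
  exact notMem_of_lt_csInf h hb ⟨ha, hs⟩

/-- the rate is nondecreasing in `p` -/
theorem rate_mono (κ : Kind) (d : ℕ) {p q : unitInterval} (h : p ≤ q) :
    rate κ d p ≤ rate κ d q := by
  refine le_of_forall_gt_imp_ge_of_dense ?_
  intro a ha
  have hs := rate_lt κ d q ha
  have h0 : 0 ≤ a := (rate_nonneg κ d q).trans ha.le
  have hs' : Summable (qj κ (d := d) p a) := by
    refine Summable.of_nonneg_of_le (fun j => qj_nonneg κ p a j) (fun j => ?_) hs
    unfold qj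
    have hinc : Incr {ω : El d → Bool | ∃ x ∈ box (0 : V d) (2 ^ j),
        Real.exp (a * 2 ^ j) ≤ Pn κ ω (2 ^ j) x} := by
      rintro ω ω' hωω ⟨x, hx, hx2⟩
      refine ⟨x, hx, hx2.trans ?_⟩
      exact_mod_cast Pn_mono κ (2 ^ j) x (fun e he => by
        have := hωω e
        rw [he] at this
        simpa using this)
    have hm : MeasurableSet {ω : El d → Bool | ∃ x ∈ box (0 : V d) (2 ^ j),
        Real.exp (a * 2 ^ j) ≤ Pn κ ω (2 ^ j) x} := by
      have : {ω : El d → Bool | ∃ x ∈ box (0 : V d) (2 ^ j),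
          Real.exp (a * 2 ^ j) ≤ Pn κ ω (2 ^ j) x} = ⋃ x ∈ box (0 : V d) (2 ^ j),
          {ω | Real.exp (a * 2 ^ j) ≤ (Pn κ ω (2 ^ j) x : ℝ)} := by
        ext ω; simp
      rw [this]
      exact Finset.measurableSet_biUnion _ fun x _ =>
        measurableSet_le measurable_const (PropA_meas_Pn κ _ x)
    rw [measureReal_def, measureReal_def]
    exact ENNReal.toReal_mono (measure_ne_top _ _) (mono_p hinc hm h)
  by_contra hcon
  push Not at hcon
  exact lt_rate κ d p h0 hcon hs'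

/-- Borel-Cantelli at dyadic scales -/
theorem upper_qj (κ : Kind) (p : unitInterval) {a : ℝ} (hs : Summable (qj κ (d := d) p a)) (K : ℕ) :
    ∀ᵐ ω ∂(prodBern (El d) p), ∀ᶠ k : ℕ in atTop, ∀ x : V d, (∀ i, |x i| ≤ K * 2 ^ k) →
      (Pn κ ω (2 ^ k) x : ℝ) ≤ Real.exp (a * 2 ^ k) := by
  obtain ⟨s, hs'⟩ : ∃ s : ℕ → Set (El d → Bool), ∀ k, s k = {ω | ∃ x : V d,
      (∀ i, |x i| ≤ K * 2 ^ k) ∧ Real.exp (a * 2 ^ k) ≤ (Pn κ ω (2 ^ k) x : ℝ)} :=
    ⟨_, fun _ => rfl⟩
  have hbound : ∀ k, (prodBern (El d) p) (s k) ≤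
      ENNReal.ofReal (((2 * K + 1 : ℕ) : ℝ) ^ d * qj κ (d := d) p a k) := by
    intro k
    rw [hs']
    obtain ⟨I, hIc, hI⟩ := box_cover (fun _ : Fin d => -((K * 2 ^ k : ℕ) : ℤ)) (2 ^ k) (2 * K + 1)
    have hsub : {ω : El d → Bool | ∃ x : V d,
        (∀ i, |x i| ≤ K * 2 ^ k) ∧ Real.exp (a * 2 ^ k) ≤ (Pn κ ω (2 ^ k) x : ℝ)} ⊆
        ⋃ v ∈ I, {ω | ∃ x ∈ box v (2 ^ k), Real.exp (a * 2 ^ k) ≤ (Pn κ ω (2 ^ k) x : ℝ)} := by
      rintro ω ⟨x, hx, hlt⟩
      have hxb : x ∈ box (fun _ : Fin d => -((K * 2 ^ k : ℕ) : ℤ)) ((2 * K + 1) * 2 ^ k) := by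
        rw [mem_box]
        intro i
        have h1 := abs_le.mp (hx i)
        have h2 : (0:ℤ) < 2 ^ k := by positivity
        push_cast
        constructor
        · linarith [h1.1]
        · nlinarith [h1.2]
      have h3 := hI hxb
      rw [Finset.mem_biUnion] at h3
      obtain ⟨v, hv, hxv⟩ := h3
      rw [Set.mem_iUnion₂]
      exact ⟨v, hv, x, hxv, hlt⟩
    refine (measure_mono hsub).trans ((measure_biUnion_finset_le I _).trans ?_)
    have hle : ∀ v ∈ I, (prodBern (El d) p) {ω | ∃ x ∈ box v (2 ^ k),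
          Real.exp (a * 2 ^ k) ≤ (Pn κ ω (2 ^ k) x : ℝ)} ≤
        ENNReal.ofReal (qj κ (d := d) p a k) := by
      intro v _
      have hset : {ω : El d → Bool | ∃ x ∈ box v (2 ^ k),
          Real.exp (a * 2 ^ k) ≤ (Pn κ ω (2 ^ k) x : ℝ)} =
          (fun (ω : El d → Bool) e => ω (shE v e)) ⁻¹' {ω | ∃ x ∈ box (0 : V d) (2 ^ k),
            Real.exp (a * 2 ^ k) ≤ (Pn κ ω (2 ^ k) x : ℝ)} := by
        ext ω
        simp only [Set.mem_ofPred_eq, Set.mem_preimage]
        constructor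
        · rintro ⟨x, hx, hx2⟩
          refine ⟨x - v, ?_, ?_⟩
          · rw [mem_box] at hx ⊢
            intro i
            have := hx i
            simp only [Pi.sub_apply, Pi.zero_apply]
            constructor <;> linarith [this.1, this.2]
          · rw [← Pn_shift, sub_add_cancel]; exact hx2
        · rintro ⟨x, hx, hx2⟩
          refine ⟨x + v, ?_, ?_⟩
          · rw [mem_box] at hx ⊢
            intro i
            have := hx i
            simp only [Pi.add_apply, Pi.zero_apply] at this ⊢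
            constructor <;> linarith [this.1, this.2]
          · rw [Pn_shift]; exact hx2
      have hm : MeasurableSet {ω : El d → Bool | ∃ x ∈ box (0 : V d) (2 ^ k),
          Real.exp (a * 2 ^ k) ≤ (Pn κ ω (2 ^ k) x : ℝ)} := by
        have : {ω : El d → Bool | ∃ x ∈ box (0 : V d) (2 ^ k),
            Real.exp (a * 2 ^ k) ≤ (Pn κ ω (2 ^ k) x : ℝ)} = ⋃ x ∈ box (0 : V d) (2 ^ k),
            {ω | Real.exp (a * 2 ^ k) ≤ (Pn κ ω (2 ^ k) x : ℝ)} := by
          ext ω; simp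
        rw [this]
        exact Finset.measurableSet_biUnion _ fun x _ =>
          measurableSet_le measurable_const (PropA_meas_Pn κ _ x)
      rw [hset, ← Measure.map_apply (trans_measurable_shift v) hm, prodBern_shift]
      unfold qj
      rw [ofReal_measureReal]
    refine (Finset.sum_le_sum hle).trans ?_
    rw [Finset.sum_const, hIc, nsmul_eq_mul,
      ENNReal.ofReal_mul (p := ((2 * K + 1 : ℕ) : ℝ) ^ d) (by positivity),
      ENNReal.ofReal_pow (by positivity), ENNReal.ofReal_natCast]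
    push_cast
    exact le_rfl
  have hsum : ∑' k, (prodBern (El d) p) (s k) ≠ ⊤ := by
    have h1 : Summable (fun k : ℕ => ((2 * K + 1 : ℕ) : ℝ) ^ d * qj κ (d := d) p a k) :=
      hs.mul_left _
    have h2 := ENNReal.ofReal_tsum_of_nonneg
      (f := fun k : ℕ => ((2 * K + 1 : ℕ) : ℝ) ^ d * qj κ (d := d) p a k)
      (fun k => mul_nonneg (by positivity) (qj_nonneg κ p a k)) h1
    refine ne_top_of_le_ne_top ?_ (ENNReal.tsum_le_tsum hbound)
    rw [← h2]
    exact ENNReal.ofReal_ne_top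
  filter_upwards [ae_eventually_notMem hsum] with ω hω
  filter_upwards [hω] with k hk x hx
  by_contra hcon
  push Not at hcon
  apply hk
  rw [hs']
  exact ⟨x, hx, hcon.le⟩

theorem rate_up (κ : Kind) (d : ℕ) (p : unitInterval) :
    ∀ᵐ ω ∂(prodBern (El d) p), ∀ η : ℝ, 0 < η → ∀ K : ℕ, ∀ᶠ N : ℕ in atTop, ∀ m : ℕ, m ≤ K * N →
      ∀ x : V d, (∀ i, |x i| ≤ K * N) →
      (Pn κ ω m x : ℝ) ≤ Real.exp (rate κ d p * m + η * N) := by
  have h1 : ∀ᵐ ω ∂(prodBern (El d) p), ∀ j K : ℕ, ∀ᶠ k : ℕ in atTop, ∀ x : V d,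
      (∀ i, |x i| ≤ K * 2 ^ k) →
      (Pn κ ω (2 ^ k) x : ℝ) ≤ Real.exp ((rate κ d p + 1 / ((j : ℝ) + 1)) * 2 ^ k) := by
    rw [ae_all_iff]
    intro j
    rw [ae_all_iff]
    intro K
    have hj : (0 : ℝ) < 1 / ((j : ℝ) + 1) := by positivity
    exact upper_qj κ p (rate_lt κ d p (by linarith)) K
  filter_upwards [h1] with ω hω
  intro η hη K
  refine upper_all_det κ ω (rate_nonneg κ d p) ?_ hη K
  intro η' hη' K'
  obtain ⟨j, hj⟩ := exists_nat_one_div_lt hη'
  filter_upwards [hω j K'] with k hk x hx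
  refine (hk x hx).trans ?_
  rw [Real.exp_le_exp]
  apply mul_le_mul_of_nonneg_right _ (by positivity)
  linarith

end Pool.Agent.H41.QA
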