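import Pool.Agent.H17.QA.ThmA
import Pool.Agent.H17.QA.ThmB
import Pool.Agent.H41.QA.Upper
import Pool.Agent.H41.QC.Lower
import Pool.Agent.H75.BK.Main

/-!
# QA module Limit: from good starts to the limit
-/

open MeasureTheory Filter Topology
open Pool.Agent.H17.IIC Pool.Agent.H41.QC Pool.Agent.H47.GM Pool.Agent.H17.QA

namespace Pool.Agent.H41.QA

lemma tendsto_root {a : ℕ → ℝ} {β : ℝ}
    (hup : ∀ η : ℝ, 0 < η → ∀ᶠ n : ℕ in atTop, a n ≤ Real.exp ((β + η) * n))
    (hlow : ∀ η : ℝ, 0 < η → ∀ᶠ n : ℕ in atTop, Real.exp ((β - η) * n) ≤ a n) :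
    Tendsto (fun n : ℕ => a n ^ (1 / (n : ℝ))) atTop (𝓝 (Real.exp β)) := by
  have key : ∀ (b : ℝ) (n : ℕ), 1 ≤ n → (Real.exp (b * n)) ^ (1 / (n : ℝ)) = Real.exp b := by
    intro b n hn
    have hn' : (n : ℝ) ≠ 0 := by positivity
    rw [← Real.exp_mul]
    congr 1
    field_simp
  rw [tendsto_order]
  constructor
  · intro c hc
    have h1 := Real.continuous_exp.continuousAt.eventually (lt_mem_nhds hc)
    rw [Metric.eventually_nhds_iff] at h1
    obtain ⟨δ, hδ, h1⟩ := h1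
    have h2 : c < Real.exp (β - δ / 2) := by
      apply h1
      rw [Real.dist_eq]
      rw [abs_lt]; constructor <;> linarith
    filter_upwards [hlow (δ / 2) (by linarith), eventually_ge_atTop 1] with n hn hn1
    refine h2.trans_le ?_
    rw [← key (β - δ / 2) n hn1]
    exact Real.rpow_le_rpow (Real.exp_pos _).le hn (by positivity)
  · intro c hc
    have h1 := Real.continuous_exp.continuousAt.eventually (gt_mem_nhds hc)
    rw [Metric.eventually_nhds_iff] at h1
    obtain ⟨δ, hδ, h1⟩ := h1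
    have h2 : Real.exp (β + δ / 2) < c := by
      apply h1
      rw [Real.dist_eq]
      rw [abs_lt]; constructor <;> linarith
    filter_upwards [hup (δ / 2) (by linarith), hlow 1 one_pos, eventually_ge_atTop 1] with n hn hn0 hn1
    refine lt_of_le_of_lt ?_ h2
    rw [← key (β + δ / 2) n hn1]
    exact Real.rpow_le_rpow ((Real.exp_pos _).le.trans hn0) hn (by positivity)

/-- good starts exist at every rate below `rate` (`thmA` + `thmB`) -/
theorem good_exists {n : ℕ} {κ : Kind} {p : unitInterval} (RS : RoadSys κ (n + 2) p)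
    (hp : 0 < (p : ℝ)) {b : ℝ} (hb : b < rate κ (n + 2) p) (hr : 0 < rate κ (n + 2) p) :
    ∀ᵐ ω ∂(prodBern (El (n + 2)) p), ∃ x : V (n + 2),
      ∀ᶠ N : ℕ in atTop, Real.exp (b * N) ≤ Pn κ ω N x := by
  set r := rate κ (n + 2) p with hrdef
  obtain ⟨b₁, hb0, hbb, hbr⟩ : ∃ b₁ : ℝ, 0 ≤ b₁ ∧ b < b₁ ∧ b₁ < r := by
    have h1 : max b 0 < r := max_lt hb hr
    refine ⟨(max b 0 + r) / 2, ?_, ?_, ?_⟩
    · have := le_max_right b 0
      linarith
    · have := le_max_left b 0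
      linarith
    · linarith
  choose c₀ hc₀ U₀ hU₀ hA using fun Λ : ℕ => thmA RS hp b₁ hb0 Λ
  have hns : ¬ Summable (qj κ (d := n + 2) p ((b₁ + r) / 2)) :=
    lt_rate κ (n + 2) p (by linarith) (by linarith)
  obtain ⟨Λ, u, c, C₁, α, β, h1, h2, h3, h4, h5, h6⟩ :=
    thmB RS hp ((b₁ + r) / 2) b₁ hb0 (by linarith) c₀ hc₀ U₀ hns
  have h7 := hA Λ u h1 h2 h3 c C₁ h4 α β h5 h6 (b₁ - b) (by linarith)
  simpa using h7

/-- transport of a good start to the origin -/
theorem good_origin (κ : Kind) {d : ℕ} (ω : El d → Bool) {b₁ : ℝ} (hb₁ : 0 ≤ b₁)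
    (hup : ∀ η' : ℝ, 0 < η' → ∀ K : ℕ, ∀ᶠ N : ℕ in atTop, ∀ m : ℕ, m ≤ K * N →
      ∀ x : V d, (∀ i, |x i| ≤ K * N) → (Pn κ ω m x : ℝ) ≤ Real.exp (b₁ * m + η' * N))
    (hgood : ∀ b < b₁, ∃ x : V d, (Gr κ ω).Reachable 0 x ∧
      ∀ᶠ N : ℕ in atTop, Real.exp (b * N) ≤ Pn κ ω N x) {η : ℝ} (hη : 0 < η) :
    ∀ᶠ N : ℕ in atTop, Real.exp ((b₁ - η) * N) ≤ Pn κ ω N 0 := by
  obtain ⟨x, ⟨w⟩, hx⟩ := hgood (b₁ - η / 16) (by linarith)
  set ε : ℝ := min 1 (η / (64 * (b₁ + 1))) with hε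
  have hε0 : 0 < ε := lt_min one_pos (by positivity)
  have hε1 : ε ≤ 1 := min_le_left _ _
  have hε2 : 16 * ε * b₁ ≤ η / 4 := by
    have h1 : ε ≤ η / (64 * (b₁ + 1)) := min_le_right _ _
    rw [le_div_iff₀ (by positivity)] at h1
    nlinarith
  have hdet := lower_det κ ω (b₀ := b₁ - η / 16) (b₁ := b₁) (η := η / 160) (ε := ε) hb₁
    (by positivity) hε0 hε1 hup (by
      have h2k : Tendsto (fun k : ℕ => 2 ^ k) atTop (atTop : Filter ℕ) :=
        tendsto_pow_atTop_atTop_of_one_lt (by norm_num)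
      have h1 := h2k.eventually hx
      have h2 : Tendsto (fun k : ℕ => ε * (2 : ℝ) ^ k) atTop atTop :=
        (tendsto_pow_atTop_atTop_of_one_lt (by norm_num)).const_mul_atTop hε0
      filter_upwards [h1, h2.eventually_ge_atTop (w.length : ℝ)] with k hk1 hk2
      refine ⟨x, le_trans ?_ hk1, w, hk2⟩
      rw [Real.exp_le_exp]
      push_cast
      apply mul_le_mul_of_nonneg_right _ (by positivity)
      linarith)
  filter_upwards [hdet] with N hN
  refine le_trans (Real.exp_le_exp.mpr ?_) hN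
  apply mul_le_mul_of_nonneg_right _ (Nat.cast_nonneg N)
  linarith

/-- many paths of all lengths: the cluster is infinite -/
theorem infinite_of_good (κ : Kind) {d : ℕ} (ω : El d → Bool) (x : V d)
    (h : ∀ᶠ N : ℕ in atTop, 0 < Pn κ ω N x) : {z | (Gr κ ω).Reachable x z}.Infinite := by
  intro hfin
  obtain ⟨M, hM⟩ := eventually_atTop.1 h
  set c := hfin.toFinset.card with hc
  have h1 := hM (max M c) (le_max_left _ _)
  rw [← PnBasic_card_OS, Finset.card_pos] at h1
  obtain ⟨s, hs⟩ := h1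
  have hP := Split_of_mem hs
  have hreach : ∀ t ≤ max M c, (Gr κ ω).Reachable x (x + pos s t) := by
    intro t ht
    induction t with
    | zero => rw [pos_zero, add_zero]
    | succ t ih =>
      refine (ih (by omega)).trans (SimpleGraph.Adj.reachable ?_)
      refine ⟨hP.adj t (by omega), ?_⟩
      cases κ with
      | bond => exact hP.bond rfl t (by omega)
      | site => exact ⟨hP.site rfl t (by omega), hP.site rfl (t + 1) (by omega)⟩
  have hcard : (Finset.range (max M c + 1)).card ≤ hfin.toFinset.card := by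
    refine Finset.card_le_card_of_injOn (fun t => x + pos s t) ?_ ?_
    · intro t ht
      rw [Finset.coe_range, Set.mem_Iio] at ht
      rw [Set.Finite.coe_toFinset]
      exact hreach t (by omega)
    · intro a ha b hb hab
      rw [Finset.coe_range, Set.mem_Iio] at ha hb
      exact hP.inj a (by omega) b (by omega) hab
  rw [Finset.card_range, ← hc] at hcard
  have := le_max_right M c
  omega

/-- the limit, for a road system -/
theorem limit_rs {n : ℕ} {κ : Kind} {p : unitInterval} (RS : RoadSys κ (n + 2) p)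
    (hp : 0 < (p : ℝ)) :
    ∀ᵐ ω ∂(prodBern (El (n + 2)) p), {y | (Gr κ ω).Reachable 0 y}.Infinite →
      Tendsto (fun N : ℕ => (Pn κ ω N (0 : V (n + 2)) : ℝ) ^ (1 / (N : ℝ))) atTop
        (𝓝 (Real.exp (rate κ (n + 2) p))) := by
  have hr0 := rate_nonneg κ (n + 2) p
  have hup : ∀ ω : El (n + 2) → Bool, (∀ η : ℝ, 0 < η → ∀ K : ℕ, ∀ᶠ N : ℕ in atTop, ∀ m : ℕ,
      m ≤ K * N → ∀ x : V (n + 2), (∀ i, |x i| ≤ K * N) →
      (Pn κ ω m x : ℝ) ≤ Real.exp (rate κ (n + 2) p * m + η * N)) →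
      ∀ η : ℝ, 0 < η → ∀ᶠ N : ℕ in atTop,
        (Pn κ ω N (0 : V (n + 2)) : ℝ) ≤ Real.exp ((rate κ (n + 2) p + η) * N) := by
    intro ω hω η hη
    filter_upwards [hω η hη 1] with N hN
    refine (hN N (by omega) 0 (fun i => by simp)).trans (le_of_eq ?_)
    congr 1
    ring
  rcases hr0.eq_or_lt with hr | hr
  · filter_upwards [rate_up κ (n + 2) p] with ω hω hinf
    refine tendsto_root (hup ω hω) ?_
    intro η hη
    refine Eventually.of_forall fun N => ?_
    have h1 : 1 ≤ Pn κ ω N (0 : V (n + 2)) := Pn_pos_of_infinite κ ω hinf N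
    have h2 : (1 : ℝ) ≤ (Pn κ ω N (0 : V (n + 2)) : ℝ) := by exact_mod_cast h1
    refine le_trans ?_ h2
    rw [← Real.exp_zero, Real.exp_le_exp, ← hr]
    have : (0 : ℝ) ≤ N := Nat.cast_nonneg N
    nlinarith
  · have hgood : ∀ᵐ ω ∂(prodBern (El (n + 2)) p), ∀ j : ℕ, ∃ x : V (n + 2),
        ∀ᶠ N : ℕ in atTop, Real.exp ((rate κ (n + 2) p - 1 / ((j : ℝ) + 1)) * N) ≤ Pn κ ω N x := by
      rw [ae_all_iff]
      intro j
      have hj : (0 : ℝ) < 1 / ((j : ℝ) + 1) := by positivity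
      exact good_exists RS hp (by linarith) hr
    filter_upwards [rate_up κ (n + 2) p, hgood, Pool.Agent.H75.BK.uniq κ (n + 2) p]
      with ω hω hg hu hinf
    refine tendsto_root (hup ω hω) ?_
    intro η hη
    refine good_origin κ ω hr0 hω ?_ hη
    intro b hb
    obtain ⟨j, hj⟩ := exists_nat_one_div_lt (sub_pos.2 hb)
    obtain ⟨x, hx⟩ := hg j
    have hx2 : ∀ᶠ N : ℕ in atTop, Real.exp (b * N) ≤ Pn κ ω N x := by
      filter_upwards [hx] with N hN
      refine le_trans (Real.exp_le_exp.mpr ?_) hN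
      apply mul_le_mul_of_nonneg_right _ (Nat.cast_nonneg N)
      linarith
    refine ⟨x, hu 0 x hinf (infinite_of_good κ ω x ?_), hx2⟩
    filter_upwards [hx2] with N hN
    have : (0 : ℝ) < Pn κ ω N x := (Real.exp_pos _).trans_le hN
    exact_mod_cast this

end Pool.Agent.H41.QA
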