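import Pool.Agent.H41.QA.Upper

/-!
# QA module One: the case `p = 1` (Fekete)
-/

open MeasureTheory Filter Topology
open Pool.Agent.H17.IIC Pool.Agent.H41.QC Pool.Agent.H47.GM Pool.Agent.H17.QA

namespace Pool.Agent.H41.QA

variable {d : ℕ}

/-- at `p = 1` all elements are open -/
theorem one_ae (p : unitInterval) (hp : (p : ℝ) = 1) :
    ∀ᵐ ω ∂(prodBern (El d) p), ω = fun _ => true := by
  have h1 : ∀ e : El d, ∀ᵐ ω ∂(prodBern (El d) p), ω e = true := by
    intro e
    have hm : MeasurableSet {b : Bool | b = false} := measurableSet_singleton false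
    have h2 : (prodBern (El d) p).map (fun ω => ω e) = bern p :=
      (measurePreserving_eval_infinitePi (fun _ : El d => bern p) e).map_eq
    have h3 : bern p {b : Bool | b = false} = 0 := by
      unfold bern
      rw [hp]
      simp
    rw [← h2, Measure.map_apply (measurable_pi_apply e) hm] at h3
    rw [ae_iff]
    refine measure_mono_null ?_ h3
    intro ω hω
    simpa using hω
  rw [← ae_all_iff] at h1
  filter_upwards [h1] with ω hω
  funext e
  exact hω e

lemma one_pn (κ : Kind) (N : ℕ) (x : V d) :
    Pn κ (fun _ : El d => true) N x = Pn κ (fun _ : El d => true) N 0 := by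
  have := Pn_shift κ (fun _ : El d => true) N (0 : V d) x
  rwa [zero_add] at this

lemma one_inf (hd : 1 ≤ d) (κ : Kind) :
    {y : V d | (Gr κ (fun _ : El d => true)).Reachable 0 y}.Infinite := by
  have hstep : ∀ k : ℕ, (Gr κ (fun _ : El d => true)).Reachable 0
      (Pi.single (⟨0, hd⟩ : Fin d) (k : ℤ) : V d) := by
    intro k
    induction k with
    | zero => simp
    | succ k ih =>
      refine ih.trans (SimpleGraph.Adj.reachable ?_)
      refine ⟨⟨(⟨0, hd⟩, true), ?_⟩, ?_⟩
      · unfold stepVec
        rw [if_pos rfl, ← Pi.single_add]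
        push_cast
        rfl
      · cases κ
        · rfl
        · exact ⟨rfl, rfl⟩
  refine Set.infinite_of_injective_forall_mem (f := fun k : ℕ =>
    (Pi.single (⟨0, hd⟩ : Fin d) (k : ℤ) : V d)) ?_ hstep
  intro a b hab
  have := congrFun hab ⟨0, hd⟩
  simpa using this

/-- the limit at `p = 1` -/
theorem limit_one (hd : 1 ≤ d) (κ : Kind) (p : unitInterval) (hp : (p : ℝ) = 1) :
    ∀ᵐ ω ∂(prodBern (El d) p),
      Tendsto (fun N : ℕ => (Pn κ ω N (0 : V d) : ℝ) ^ (1 / (N : ℝ))) atTop
        (𝓝 (Real.exp (rate κ d p))) := by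
  set c : ℕ → ℝ := fun N => (Pn κ (fun _ : El d => true) N (0 : V d) : ℝ) with hc
  have hc1 : ∀ N, 1 ≤ c N := by
    intro N
    have h1 : 1 ≤ Pn κ (fun _ : El d => true) N (0 : V d) :=
      Pn_pos_of_infinite κ (fun _ : El d => true) (one_inf hd κ) N
    show (1 : ℝ) ≤ (Pn κ (fun _ : El d => true) N (0 : V d) : ℝ)
    exact_mod_cast h1
  set u : ℕ → ℝ := fun N => Real.log (c N) with hu
  have hu0 : ∀ N, 0 ≤ u N := fun N => Real.log_nonneg (hc1 N)
  have hsub : Subadditive u := by
    intro m n
    have h1 := Pn_add_le κ (fun _ : El d => true) m n (0 : V d) (A := c n)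
      (zero_le_one.trans (hc1 n)) (fun y _ => by rw [one_pn])
    simp only [hu]
    rw [← Real.log_mul (by linarith [hc1 m]) (by linarith [hc1 n])]
    exact Real.log_le_log (by linarith [hc1 (m + n)]) h1
  have hbdd : BddBelow (Set.range fun n => u n / n) := by
    refine ⟨0, ?_⟩
    rintro _ ⟨n, rfl⟩
    exact div_nonneg (hu0 n) (Nat.cast_nonneg n)
  have hlim := hsub.tendsto_lim hbdd
  set L := hsub.lim with hL
  have hle : ∀ n : ℕ, 1 ≤ n → L ≤ u n / n := fun n hn => hsub.lim_le_div hbdd (by omega)
  have hL0 : 0 ≤ L := ge_of_tendsto' hlim fun n => div_nonneg (hu0 n) (Nat.cast_nonneg n)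
  have hae := one_ae (d := d) p hp
  have hqj : ∀ (a : ℝ) (j : ℕ), qj κ (d := d) p a j =
      (prodBern (El d) p).real {_ω | Real.exp (a * 2 ^ j) ≤ c (2 ^ j)} := by
    intro a j
    unfold qj
    rw [measureReal_def, measureReal_def]
    congr 1
    apply measure_congr
    filter_upwards [hae] with ω hω
    apply propext
    subst hω
    constructor
    · rintro ⟨x, -, hx⟩
      rw [one_pn] at hx
      exact hx
    · intro hx
      refine ⟨0, ?_, hx⟩
      rw [mem_box]
      intro i
      simp
  have hLr : L = rate κ d p := by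
    apply le_antisymm
    · by_contra hcon
      push Not at hcon
      obtain ⟨a, ha1, ha2⟩ := exists_between hcon
      have hs := rate_lt κ d p ha1
      have h1 : ∀ j, qj κ (d := d) p a j = 1 := by
        intro j
        rw [hqj]
        have : {_ω : El d → Bool | Real.exp (a * 2 ^ j) ≤ c (2 ^ j)} = Set.univ := by
          rw [Set.eq_univ_iff_forall]
          intro _
          have h2 := hle (2 ^ j) Nat.one_le_two_pow
          rw [le_div_iff₀ (by positivity)] at h2
          push_cast at h2
          show Real.exp (a * 2 ^ j) ≤ c (2 ^ j)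
          rw [← Real.exp_log (show 0 < c (2 ^ j) by linarith [hc1 (2 ^ j)]), Real.exp_le_exp]
          refine le_trans ?_ h2
          exact mul_le_mul_of_nonneg_right ha2.le (by positivity)
        rw [this]
        simp
      have h2 := hs.tendsto_atTop_zero
      have h3 : Tendsto (qj κ (d := d) p a) atTop (𝓝 1) := by
        have : qj κ (d := d) p a = fun _ => 1 := funext h1
        rw [this]
        exact tendsto_const_nhds
      exact zero_ne_one (tendsto_nhds_unique h2 h3)
    · by_contra hcon
      push Not at hcon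
      obtain ⟨a, ha1, ha2⟩ := exists_between hcon
      apply lt_rate κ d p (hL0.trans ha1.le) ha2
      have h1 : Tendsto (fun j : ℕ => u (2 ^ j) / ((2 ^ j : ℕ) : ℝ)) atTop (𝓝 L) :=
        hlim.comp (tendsto_pow_atTop_atTop_of_one_lt (by norm_num))
      have h2 := h1.eventually (gt_mem_nhds ha1)
      obtain ⟨M, hM⟩ := eventually_atTop.1 h2
      refine summable_of_ne_finset_zero (s := Finset.range M) fun j hj => ?_
      rw [Finset.mem_range, not_lt] at hj
      rw [hqj]
      have : {_ω : El d → Bool | Real.exp (a * 2 ^ j) ≤ c (2 ^ j)} = ∅ := by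
        rw [Set.eq_empty_iff_forall_notMem]
        intro _ hx
        have hx : Real.exp (a * 2 ^ j) ≤ c (2 ^ j) := hx
        have h3 := hM j hj
        rw [div_lt_iff₀ (by positivity)] at h3
        push_cast at h3
        rw [← Real.exp_log (show 0 < c (2 ^ j) by linarith [hc1 (2 ^ j)]), Real.exp_le_exp] at hx
        exact absurd hx (not_le.2 h3)
      rw [this]
      simp
  filter_upwards [hae] with ω hω
  subst hω
  rw [← hLr]
  have h1 : Tendsto (fun n => Real.exp (u n / n)) atTop (𝓝 (Real.exp L)) :=
    (Real.continuous_exp.tendsto L).comp hlim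
  refine h1.congr' ?_
  filter_upwards with n
  show Real.exp (Real.log (c n) / n) = c n ^ (1 / (n : ℝ))
  rw [Real.rpow_def_of_pos (by linarith [hc1 n])]
  congr 1
  ring

end Pool.Agent.H41.QA
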